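import Pool.Agent.N972.PC15.Rot
import Pool.Agent.Y288.Z7.Cnt

/-!
Parametrization of the pairs of vectors of the lattice of level 5 with given Gram matrix
(project X15, part PC15).
-/

set_option autoImplicit false
set_option linter.all false

namespace Pool.Agent.N972.PC15

open Finset Matrix
open Pool.Agent.Y288.Z7 (cols dd3 det_cols cols_eq dt crs crs0 crs1 crs2 ext3 dd3_eq dd3_eq' dt_comm
  dcross crs_lin crs_sub dt_crs_left dt_crs_right dt_add dt_sub dt_smul smul_dt cramer3 small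
  parallel bez content crs_sub_smul crs_smul)

/-! ### bilinearity and the cross product identities -/

theorem gi_add (v w u : Fin 3 → ℤ) : gi v (w + u) = gi v w + gi v u := by
  simp only [gi, Pi.add_apply]; ring

theorem gi_sub (v w u : Fin 3 → ℤ) : gi v (w - u) = gi v w - gi v u := by
  simp only [gi, Pi.sub_apply]; ring

theorem gi_smul (v w : Fin 3 → ℤ) (a : ℤ) : gi v (a • w) = a * gi v w := by
  simp only [gi, Pi.smul_apply, smul_eq_mul]; ring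

theorem smul_gi (v w : Fin 3 → ℤ) (a : ℤ) : gi (a • v) w = a * gi v w := by
  simp only [gi, Pi.smul_apply, smul_eq_mul]; ring

theorem fi_sub (v w u : Fin 3 → ℤ) : fi v (w - u) = fi v w - fi v u := by
  simp only [fi, Pi.sub_apply]; ring

theorem fi_smul (v w : Fin 3 → ℤ) (a : ℤ) : fi v (a • w) = a * fi v w := by
  simp only [fi, Pi.smul_apply, smul_eq_mul]; ring

theorem smul_fi (v w : Fin 3 → ℤ) (a : ℤ) : fi (a • v) w = a * fi v w := by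
  simp only [fi, Pi.smul_apply, smul_eq_mul]; ring

theorem fi_self (c : Fin 3 → ℤ) : fi c c = 2 * ff c := by
  simp only [fi, ff]; ring

theorem ff_smul (c : Fin 3 → ℤ) (a : ℤ) : ff (a • c) = a ^ 2 * ff c := by
  simp only [ff, Pi.smul_apply, smul_eq_mul]; ring

theorem ff_nonneg (c : Fin 3 → ℤ) : 0 ≤ ff c := by
  simp only [ff]
  nlinarith [sq_nonneg (c 0 + c 1), sq_nonneg (c 0 + c 2), sq_nonneg (c 1 + c 2)]

/-- the determinant of the Gram matrix of a pair -/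
theorem lag_g (v w u z : Fin 3 → ℤ) :
    gi v v * gi w z - gi v w * gi v z = 10 * fi (crs v w) (crs v z) := by
  simp only [gi, fi, crs0, crs1, crs2]; ring

theorem lag_g2 (v w : Fin 3 → ℤ) :
    gi v v * gi w w - gi v w ^ 2 = 20 * ff (crs v w) := by
  simp only [gi, ff, crs0, crs1, crs2]; ring

/-- the dual identity -/
theorem lag_f (v w z : Fin 3 → ℤ) :
    fi (crs v w) (crs v w) * fi (crs v z) (crs v z) - fi (crs v w) (crs v z) ^ 2 =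
      dd3 v w z ^ 2 * gi v v := by
  simp only [gi, fi, crs0, crs1, crs2, dd3]; ring

/-! ### norms -/

theorem gi_sum (v : Fin 3 → ℤ) : gi v v = v 0 ^ 2 + (v 0 - v 1) ^ 2 + (v 0 - v 2) ^ 2 +
    3 * (v 1 - v 2) ^ 2 + 3 * v 1 ^ 2 + 3 * v 2 ^ 2 := by
  simp only [gi]; ring

theorem gi_bound {n : ℤ} {v : Fin 3 → ℤ} (h : gi v v = n) (i : Fin 3) : v i ∈ Finset.Icc (-n) n := by
  rw [gi_sum] at h
  have key : ∀ x : ℤ, x ≤ x ^ 2 ∧ -x ≤ x ^ 2 := fun x => by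
    constructor
    · rcases le_or_gt x 0 with hx | hx
      · nlinarith [sq_nonneg x]
      · nlinarith
    · rcases le_or_gt 0 x with hx | hx
      · nlinarith [sq_nonneg x]
      · nlinarith
  have k0 := key (v 0)
  have k1 := key (v 1)
  have k2 := key (v 2)
  have s0 := sq_nonneg (v 0)
  have s1 := sq_nonneg (v 1)
  have s2 := sq_nonneg (v 2)
  have s3 := sq_nonneg (v 0 - v 1)
  have s4 := sq_nonneg (v 0 - v 2)
  have s5 := sq_nonneg (v 1 - v 2)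
  rw [Finset.mem_Icc]
  fin_cases i
  · exact ⟨by show -n ≤ v 0; linarith, by show v 0 ≤ n; linarith⟩
  · exact ⟨by show -n ≤ v 1; linarith, by show v 1 ≤ n; linarith⟩
  · exact ⟨by show -n ≤ v 2; linarith, by show v 2 ≤ n; linarith⟩

theorem prim_of_sqfree {n : ℕ} (hn : Squarefree n) {v : Fin 3 → ℤ} (h : gi v v = n) :
    ∃ y, dt v y = 1 := by
  apply bez
  intro g hg
  choose u hu using hg
  have h1 : v = (g : ℤ) • u := funext fun i => hu i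
  have h2 : ((g * g : ℕ) : ℤ) ∣ (n : ℤ) := by
    rw [← h, h1, gi_smul, smul_gi]; push_cast
    exact ⟨gi u u, by ring⟩
  have h3 : g * g ∣ n := by exact_mod_cast h2
  exact Nat.isUnit_iff.1 (hn g h3)

/-! ### the parameters -/

/-- the parameters of the representations of `(n1, b; b, n2)`, `20 Q = n1 n2 - b²`:
tuples `(e, μ, β, ν)` -/
def XX (n1 : ℕ) (b : ℤ) (Q : ℕ) : Finset (ℕ × ℕ × ℕ × ℕ) :=
  (range (Q + 1) ×ˢ range n1 ×ˢ range (2 * Q) ×ˢ range n1).filter fun q =>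
    0 < q.1 ∧ q.1 ^ 2 ∣ Q ∧ q.2.2.1 < 2 * (Q / q.1 ^ 2) ∧
    (n1 : ℤ) ∣ q.1 * q.2.1 - b ∧ n1 ∣ q.2.1 ^ 2 + 20 * (Q / q.1 ^ 2) ∧
    4 * (Q / q.1 ^ 2) ∣ q.2.2.1 ^ 2 + n1 ∧ n1 ∣ 10 * q.2.2.1 + q.2.1 * q.2.2.2 ∧
    n1 ∣ 20 * ((q.2.2.1 ^ 2 + n1) / (4 * (Q / q.1 ^ 2))) + q.2.2.2 ^ 2

/-- the conditions defining the set of parameters, with the quotients named -/
structure Wit (n1 : ℕ) (b : ℤ) (Q e μ β ν φ d ee g f : ℕ) : Prop where
  he : 0 < e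
  hD : Q = e ^ 2 * φ
  hβ : β < 2 * φ
  hμ : μ < n1
  hν : ν < n1
  hb : (n1 : ℤ) ∣ e * μ - b
  hd : n1 * d = μ ^ 2 + 20 * φ
  hg : 4 * φ * g = β ^ 2 + n1
  hee : n1 * ee = 10 * β + μ * ν
  hf : n1 * f = 20 * g + ν ^ 2

theorem wit_of_mem {n1 Q : ℕ} {b : ℤ} {e μ β ν : ℕ} (h : (e, μ, β, ν) ∈ XX n1 b Q) :
    Wit n1 b Q e μ β ν (Q / e ^ 2) ((μ ^ 2 + 20 * (Q / e ^ 2)) / n1) ((10 * β + μ * ν) / n1)
      ((β ^ 2 + n1) / (4 * (Q / e ^ 2)))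
      ((20 * ((β ^ 2 + n1) / (4 * (Q / e ^ 2))) + ν ^ 2) / n1) := by
  simp only [XX, Finset.mem_filter, Finset.mem_product, Finset.mem_range] at h
  obtain ⟨⟨h1, h2, h3, h4⟩, h5, h6, h7, h8, h9, h10, h11, h12⟩ := h
  exact ⟨h5, (Nat.mul_div_cancel' h6).symm, h7, h2, h4, h8, Nat.mul_div_cancel' h9,
    Nat.mul_div_cancel' h10, Nat.mul_div_cancel' h11, Nat.mul_div_cancel' h12⟩

theorem mem_of_wit {n1 Q : ℕ} {b : ℤ} {e μ β ν φ d ee g f : ℕ} (hQ0 : 0 < Q)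
    (h : Wit n1 b Q e μ β ν φ d ee g f) : (e, μ, β, ν) ∈ XX n1 b Q ∧ Q / e ^ 2 = φ ∧
      (μ ^ 2 + 20 * (Q / e ^ 2)) / n1 = d ∧ (10 * β + μ * ν) / n1 = ee ∧
      (20 * ((β ^ 2 + n1) / (4 * (Q / e ^ 2))) + ν ^ 2) / n1 = f := by
  obtain ⟨he, hD, hβ, hμ, hν, hb, hd, hg, hee, hf⟩ := h
  have he2 : 0 < e ^ 2 := pow_pos he 2
  have hn : 0 < n1 := by omega
  have hφ : 0 < φ := by omega
  have e1 : Q / e ^ 2 = φ := by rw [hD]; exact Nat.mul_div_cancel_left _ he2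
  have e2 : (β ^ 2 + n1) / (4 * (Q / e ^ 2)) = g := by
    rw [e1, ← hg]; exact Nat.mul_div_cancel_left _ (by omega)
  refine ⟨?_, e1, ?_, ?_, ?_⟩
  · simp only [XX, Finset.mem_filter, Finset.mem_product, Finset.mem_range]
    rw [e2, e1]
    refine ⟨⟨?_, hμ, ?_, hν⟩, he, ⟨φ, hD⟩, hβ, hb, ⟨d, hd.symm⟩, ⟨g, hg.symm⟩, ⟨ee, hee.symm⟩,
      ⟨f, hf.symm⟩⟩
    · have : e ≤ e ^ 2 := Nat.le_self_pow two_ne_zero e
      have h2 : e ^ 2 * 1 ≤ e ^ 2 * φ := Nat.mul_le_mul_left _ hφ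
      omega
    · have h2 : 1 * φ ≤ e ^ 2 * φ := Nat.mul_le_mul_right _ he2
      omega
  · rw [e1, ← hd]; exact Nat.mul_div_cancel_left _ hn
  · rw [← hee]; exact Nat.mul_div_cancel_left _ hn
  · rw [e2, ← hf]; exact Nat.mul_div_cancel_left _ hn

/-- the Gram matrix of a tuple of parameters -/
def mm (n1 Q : ℕ) (q : ℕ × ℕ × ℕ × ℕ) : Matrix (Fin 3) (Fin 3) ℤ :=
  !![(n1 : ℤ), (q.2.1 : ℤ), (q.2.2.2 : ℤ);
     (q.2.1 : ℤ), (((q.2.1 ^ 2 + 20 * (Q / q.1 ^ 2)) / n1 : ℕ) : ℤ),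
       (((10 * q.2.2.1 + q.2.1 * q.2.2.2) / n1 : ℕ) : ℤ);
     (q.2.2.2 : ℤ), (((10 * q.2.2.1 + q.2.1 * q.2.2.2) / n1 : ℕ) : ℤ),
       (((20 * ((q.2.2.1 ^ 2 + n1) / (4 * (Q / q.1 ^ 2))) + q.2.2.2 ^ 2) / n1 : ℕ) : ℤ)]

theorem mm_symm (n1 Q : ℕ) (q : ℕ × ℕ × ℕ × ℕ) : (mm n1 Q q)ᵀ = mm n1 Q q := by
  ext i j
  fin_cases i <;> fin_cases j <;> rfl

/-- the arithmetic of the inverse of the Gram matrix -/
theorem inv_arith {n1 : ℕ} (hs : Squarefree n1) (h10 : Nat.Coprime n1 10) {μ ν β φ g d ee f : ℤ}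
    (hφ : 0 < φ) (hd : n1 * d = μ ^ 2 + 20 * φ) (hg : 4 * φ * g = β ^ 2 + n1)
    (hee : n1 * ee = 10 * β + μ * ν) (hf : n1 * f = 20 * g + ν ^ 2) :
    ∃ x y α : ℤ, n1 * x = β * ν - 2 * g * μ ∧ n1 * y = β * μ - 2 * φ * ν ∧
      n1 * α = 5 + φ * x ^ 2 + β * x * y + g * y ^ 2 ∧ 0 < α := by
  have hn0 : (0 : ℤ) < n1 := by exact_mod_cast Nat.pos_of_ne_zero hs.ne_zero
  have hc10 : IsCoprime (n1 : ℤ) (10 : ℤ) := by
    have := Nat.isCoprime_iff_coprime.2 h10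
    exact_mod_cast this
  have hx : (n1 : ℤ) ∣ β * ν - 2 * g * μ := by
    apply hc10.dvd_of_dvd_mul_left
    refine ⟨ee * ν - μ * f, ?_⟩
    linear_combination (-ν) * hee + μ * hf
  have hy : (n1 : ℤ) ∣ β * μ - 2 * φ * ν := by
    apply hc10.dvd_of_dvd_mul_left
    refine ⟨ee * μ - ν * d, ?_⟩
    linear_combination (-μ) * hee + ν * hd
  obtain ⟨x, hx⟩ := hx
  obtain ⟨y, hy⟩ := hy
  -- `2 φ x + β y = - μ`, `β x + 2 γ y = - ν`
  have e1 : 2 * φ * x + β * y = -μ := by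
    apply mul_left_cancel₀ hn0.ne'
    linear_combination (-(2 * φ)) * hx - β * hy - μ * hg
  have e2 : β * x + 2 * g * y = -ν := by
    apply mul_left_cancel₀ hn0.ne'
    linear_combination (-β) * hx - (2 * g) * hy - ν * hg
  obtain ⟨q, hq⟩ : ∃ q, q = 5 + φ * x ^ 2 + β * x * y + g * y ^ 2 := ⟨_, rfl⟩
  have f1 : 4 * φ * q = n1 * (d + y ^ 2) := by
    rw [hq]
    linear_combination (2 * φ * x + β * y - μ) * e1 - hd + y ^ 2 * hg
  have f2 : 4 * g * q = n1 * (f + x ^ 2) := by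
    rw [hq]
    linear_combination (β * x + 2 * g * y - ν) * e2 - hf + x ^ 2 * hg
  have f3 : 2 * β * q = n1 * (ee - x * y) := by
    rw [hq]
    linear_combination (β * x + 2 * g * y) * e1 - μ * e2 - hee - x * y * hg
  have f4 : 4 * q ^ 2 = n1 * ((d + y ^ 2) * (f + x ^ 2) - (ee - x * y) ^ 2) := by
    apply mul_left_cancel₀ hn0.ne'
    have : (n1 : ℤ) * (4 * q ^ 2) = (4 * φ * q) * (4 * g * q) - (2 * β * q) ^ 2 := by
      linear_combination (-(4 * q ^ 2)) * hg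
    rw [this, f1, f2, f3]
    ring
  have hc4 : IsCoprime (n1 : ℤ) (4 : ℤ) := by
    have h2 : Nat.Coprime n1 2 := Nat.Coprime.coprime_dvd_right (by norm_num) h10
    have h4 : Nat.Coprime n1 (2 ^ 2) := h2.pow_right 2
    have := Nat.isCoprime_iff_coprime.2 h4
    exact_mod_cast this
  have f5 : (n1 : ℤ) ∣ q ^ 2 := by
    apply hc4.dvd_of_dvd_mul_left
    exact ⟨_, f4⟩
  have f6 : (n1 : ℤ) ∣ q := by
    have hsZ : Squarefree (n1 : ℤ) := Int.squarefree_natCast.2 hs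
    exact (hsZ.dvd_pow_iff_dvd two_ne_zero).1 f5
  obtain ⟨α, hα⟩ := f6
  refine ⟨x, y, α, hx.symm, hy.symm, by rw [← hα, hq], ?_⟩
  have hq0 : 0 < q := by
    have h1 : 0 < 4 * φ * q := by
      rw [f1, mul_add, hd]
      nlinarith [sq_nonneg μ, mul_nonneg hn0.le (sq_nonneg y)]
    by_contra hcon
    push Not at hcon
    nlinarith
  rw [hα] at hq0
  exact (mul_pos_iff_of_pos_left hn0).1 hq0

/-- the Gram matrix is the adjugate of an even form of determinant ten -/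
theorem mm_pos {n1 Q : ℕ} {b : ℤ} (hs : Squarefree n1) (h10 : Nat.Coprime n1 10) {e μ β ν : ℕ}
    (h : (e, μ, β, ν) ∈ XX n1 b Q) : ∃ M, PosF M ∧ M.adjugate = mm n1 Q (e, μ, β, ν) := by
  have hw := wit_of_mem h
  have hmm : mm n1 Q (e, μ, β, ν) = !![(n1 : ℤ), (μ : ℤ), (ν : ℤ);
     (μ : ℤ), (((μ ^ 2 + 20 * (Q / e ^ 2)) / n1 : ℕ) : ℤ),
       (((10 * β + μ * ν) / n1 : ℕ) : ℤ);
     (ν : ℤ), (((10 * β + μ * ν) / n1 : ℕ) : ℤ),
       (((20 * ((β ^ 2 + n1) / (4 * (Q / e ^ 2))) + ν ^ 2) / n1 : ℕ) : ℤ)] := rfl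
  rw [hmm]
  obtain ⟨he, hD, hβ, hμ, hν, hb, hd, hg, hee, hf⟩ := hw
  generalize (μ ^ 2 + 20 * (Q / e ^ 2)) / n1 = d at *
  generalize (10 * β + μ * ν) / n1 = ee at *
  generalize (20 * ((β ^ 2 + n1) / (4 * (Q / e ^ 2))) + ν ^ 2) / n1 = f at *
  generalize (β ^ 2 + n1) / (4 * (Q / e ^ 2)) = g at *
  generalize Q / e ^ 2 = φ at *
  have hn : (0 : ℤ) < n1 := by exact_mod_cast (by omega : 0 < n1)
  have hφ : (0 : ℤ) < φ := by exact_mod_cast (by omega : 0 < φ)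
  have k1 : (n1 : ℤ) * d = μ ^ 2 + 20 * φ := by exact_mod_cast hd
  have k2 : 4 * (φ : ℤ) * g = β ^ 2 + n1 := by exact_mod_cast hg
  have k3 : (n1 : ℤ) * ee = 10 * β + μ * ν := by exact_mod_cast hee
  have k4 : (n1 : ℤ) * f = 20 * g + ν ^ 2 := by exact_mod_cast hf
  obtain ⟨x, y, α, hx, hy, hα, hα0⟩ := inv_arith hs h10 hφ k1 k2 k3 k4
  have e1 : 2 * (φ : ℤ) * x + β * y = -μ := by
    apply mul_left_cancel₀ hn.ne'
    linear_combination (2 * (φ : ℤ)) * hx + β * hy - μ * k2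
  have e2 : (β : ℤ) * x + 2 * g * y = -ν := by
    apply mul_left_cancel₀ hn.ne'
    linear_combination (β : ℤ) * hx + (2 * (g : ℤ)) * hy - ν * k2
  have e3 : 4 * α * φ - y ^ 2 = d := by
    apply mul_left_cancel₀ hn.ne'
    linear_combination (4 * (φ : ℤ)) * hα + (2 * (φ : ℤ) * x + β * y - μ) * e1 - k1 + y ^ 2 * k2
  have e4 : 4 * α * g - x ^ 2 = f := by
    apply mul_left_cancel₀ hn.ne'
    linear_combination (4 * (g : ℤ)) * hα + ((β : ℤ) * x + 2 * g * y - ν) * e2 - k4 + x ^ 2 * k2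
  have e5 : x * y + 2 * α * β = ee := by
    apply mul_left_cancel₀ hn.ne'
    linear_combination (2 * (β : ℤ)) * hα + ((β : ℤ) * x + 2 * g * y) * e1 - μ * e2 - k3 -
      x * y * k2
  have e6 : 2 * α * n1 + x * μ + y * ν = 10 := by
    linear_combination 2 * hα + x * e1 + y * e2
  have hf0 : (0 : ℤ) < f := by
    have h1 : (0 : ℤ) < 4 * φ * g := by rw [k2]; positivity
    have hg0 : (0 : ℤ) < g := (mul_pos_iff_of_pos_left (by linarith : (0 : ℤ) < 4 * φ)).1 h1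
    have h2 : (0 : ℤ) < n1 * f := by rw [k4]; positivity
    exact (mul_pos_iff_of_pos_left hn).1 h2
  refine ⟨!![2 * α, x, y; x, 2 * g, -β; y, -β, 2 * φ], ⟨?_, ?_, ?_, ?_, ?_, ?_, ?_⟩, ?_⟩
  · ext i j
    fin_cases i <;> fin_cases j <;> rfl
  · show 0 < 2 * α
    linarith
  · show 0 < 2 * α * (2 * g) - x ^ 2
    have : 2 * α * (2 * g) - x ^ 2 = f := by rw [← e4]; ring
    rw [this]
    exact hf0
  · rw [det_fin_three]
    show 2 * α * (2 * g) * (2 * φ) - 2 * α * (-β) * (-β) - x * x * (2 * φ) + x * (-β) * y +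
      y * x * (-β) - y * (2 * g) * y = 10
    linear_combination (2 * α) * k2 - x * e1 - y * e2 + e6
  · exact ⟨α, rfl⟩
  · exact ⟨g, rfl⟩
  · exact ⟨φ, rfl⟩
  · rw [adjugate_fin_three]
    ext i j
    fin_cases i <;> fin_cases j
    · show 2 * (g : ℤ) * (2 * φ) - (-β) * (-β) = n1
      linear_combination k2
    · show -(x * (2 * φ)) + y * (-β) = (μ : ℤ)
      linear_combination -e1
    · show x * (-β) - y * (2 * g) = (ν : ℤ)
      linear_combination -e2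
    · show -(x * (2 * φ)) + (-β) * y = (μ : ℤ)
      linear_combination -e1
    · show 2 * α * (2 * φ) - y * y = (d : ℤ)
      linear_combination e3
    · show -(2 * α * (-β)) + y * x = (ee : ℤ)
      linear_combination e5
    · show x * (-β) - 2 * g * y = (ν : ℤ)
      linear_combination -e2
    · show -(2 * α * (-β)) + x * y = (ee : ℤ)
      linear_combination e5
    · show 2 * α * (2 * g) - x * x = (f : ℤ)
      linear_combination e4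

theorem gram_mm {n1 Q : ℕ} {e μ β ν : ℕ} {A : Matrix (Fin 3) (Fin 3) ℤ}
    (hA : Aᵀ * GG * A = mm n1 Q (e, μ, β, ν)) {v w z : Fin 3 → ℤ} (hc : A = cols v w z) :
    gi v v = n1 ∧ gi v w = μ ∧ gi v z = ν ∧
      gi w w = (((μ ^ 2 + 20 * (Q / e ^ 2)) / n1 : ℕ) : ℤ) ∧
      gi w z = (((10 * β + μ * ν) / n1 : ℕ) : ℤ) ∧
      gi z z = (((20 * ((β ^ 2 + n1) / (4 * (Q / e ^ 2))) + ν ^ 2) / n1 : ℕ) : ℤ) := by
  rw [hc, gram_iff v w z _ (mm_symm _ _ _)] at hA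
  exact hA

/-- the pairs -/
abbrev Pairs (n1 n2 : ℕ) (b : ℤ) : Type :=
  {q : (Fin 3 → ℤ) × (Fin 3 → ℤ) // gi q.1 q.1 = n1 ∧ gi q.2 q.2 = n2 ∧ gi q.1 q.2 = b}

/-- the parameters and the frames -/
abbrev Fr (n1 : ℕ) (b : ℤ) (Q : ℕ) : Type :=
  Σ x : {x : ℕ × ℕ × ℕ × ℕ // x ∈ XX n1 b Q},
    {A : Matrix (Fin 3) (Fin 3) ℤ // Aᵀ * GG * A = mm n1 Q x.1 ∧ A.det = 1}

theorem card_fr {n1 : ℕ} (hs : Squarefree n1) (h10 : Nat.Coprime n1 10) (b : ℤ) (Q : ℕ) :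
    Nat.card (Fr n1 b Q) = 6 * (XX n1 b Q).card := by
  have h1 : ∀ x : {x : ℕ × ℕ × ℕ × ℕ // x ∈ XX n1 b Q},
      Nat.card {A : Matrix (Fin 3) (Fin 3) ℤ // Aᵀ * GG * A = mm n1 Q x.1 ∧ A.det = 1} = 6 := by
    rintro ⟨⟨e, μ, β, ν⟩, hx⟩
    obtain ⟨M, hM, hM2⟩ := mm_pos hs h10 hx
    rw [← hM2]
    exact t_TORS M hM
  haveI : ∀ x : {x : ℕ × ℕ × ℕ × ℕ // x ∈ XX n1 b Q},
      Finite {A : Matrix (Fin 3) (Fin 3) ℤ // Aᵀ * GG * A = mm n1 Q x.1 ∧ A.det = 1} := fun x =>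
    Nat.finite_of_card_ne_zero (by rw [h1 x]; norm_num)
  rw [Nat.card_sigma, Finset.sum_congr rfl (fun x _ => h1 x), Finset.sum_const, smul_eq_mul,
    Finset.card_univ, Fintype.card_coe, mul_comm]

/-- the pair attached to a frame -/
def toPair (b : ℤ) (n1 : ℕ) (x : ℕ × ℕ × ℕ × ℕ) (A : Matrix (Fin 3) (Fin 3) ℤ) :
    (Fin 3 → ℤ) × (Fin 3 → ℤ) :=
  (fun i => A i 0, (x.1 : ℤ) • (fun i => A i 1) + ((b - x.1 * x.2.1) / n1) • (fun i => A i 0))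

theorem toPair_mem {n1 n2 Q : ℕ} {b : ℤ} (hDD : 20 * (Q : ℤ) = n1 * n2 - b ^ 2)
    {e μ β ν : ℕ} (hx : (e, μ, β, ν) ∈ XX n1 b Q) {A : Matrix (Fin 3) (Fin 3) ℤ}
    (hA : Aᵀ * GG * A = mm n1 Q (e, μ, β, ν)) :
    gi (toPair b n1 (e, μ, β, ν) A).1 (toPair b n1 (e, μ, β, ν) A).1 = n1 ∧
      gi (toPair b n1 (e, μ, β, ν) A).2 (toPair b n1 (e, μ, β, ν) A).2 = n2 ∧
      gi (toPair b n1 (e, μ, β, ν) A).1 (toPair b n1 (e, μ, β, ν) A).2 = b := by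
  obtain ⟨h1, h2, h3, h4, h5, h6⟩ := gram_mm hA (cols_eq A)
  have hw := wit_of_mem hx
  simp only [toPair]
  generalize (fun i => A i 0) = v at *
  generalize (fun i => A i 1) = w at *
  have hn : (n1 : ℤ) ≠ 0 := by
    have := hw.hμ
    exact_mod_cast (by omega : n1 ≠ 0)
  obtain ⟨k, hk⟩ := hw.hb
  have hk' : (b - e * μ) / (n1 : ℤ) = -k := by
    rw [show b - (e : ℤ) * μ = n1 * (-k) by linarith]
    exact Int.mul_ediv_cancel_left _ hn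
  rw [hk']
  refine ⟨h1, ?_, ?_⟩
  · have e1 : gi ((e : ℤ) • w + (-k) • v) ((e : ℤ) • w + (-k) • v) =
        e ^ 2 * gi w w - 2 * e * k * gi v w + k ^ 2 * gi v v := by
      simp only [gi, Pi.add_apply, Pi.smul_apply, smul_eq_mul]; ring
    rw [e1, h1, h2, h4]
    have k1 : (n1 : ℤ) * (((μ ^ 2 + 20 * (Q / e ^ 2)) / n1 : ℕ) : ℤ) =
        μ ^ 2 + 20 * ((Q / e ^ 2 : ℕ) : ℤ) := by
      exact_mod_cast hw.hd
    have k2 : (Q : ℤ) = e ^ 2 * ((Q / e ^ 2 : ℕ) : ℤ) := by exact_mod_cast hw.hD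
    generalize (((μ ^ 2 + 20 * (Q / e ^ 2)) / n1 : ℕ) : ℤ) = d at *
    generalize ((Q / e ^ 2 : ℕ) : ℤ) = φ at *
    apply mul_left_cancel₀ hn
    have e2 : (n1 : ℤ) * (e ^ 2 * d - 2 * e * k * μ + k ^ 2 * n1) =
        e ^ 2 * (n1 * d) - 2 * (e * μ) * (n1 * k) + (n1 * k) ^ 2 := by ring
    rw [e2, k1, ← hk]
    have e3 : (e : ℤ) ^ 2 * (μ ^ 2 + 20 * φ) - 2 * (e * μ) * (e * μ - b) + (e * μ - b) ^ 2 =
        20 * (e ^ 2 * φ) + b ^ 2 := by ring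
    rw [e3, ← k2, hDD]
    ring
  · rw [gi_add, gi_smul, gi_smul, h1, h2]
    linarith

theorem toPair_inj {n1 Q : ℕ} {b : ℤ} {e μ β ν e' μ' β' ν' : ℕ}
    (hx : (e, μ, β, ν) ∈ XX n1 b Q) (hx' : (e', μ', β', ν') ∈ XX n1 b Q)
    {A A' : Matrix (Fin 3) (Fin 3) ℤ} (hA : Aᵀ * GG * A = mm n1 Q (e, μ, β, ν)) (hd : A.det = 1)
    (hA' : A'ᵀ * GG * A' = mm n1 Q (e', μ', β', ν')) (hd' : A'.det = 1)
    (h : toPair b n1 (e, μ, β, ν) A = toPair b n1 (e', μ', β', ν') A') :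
    (e, μ, β, ν) = (e', μ', β', ν') ∧ A = A' := by
  obtain ⟨h1, h2, h3, h4, h5, h6⟩ := gram_mm hA (cols_eq A)
  obtain ⟨h1', h2', h3', h4', h5', h6'⟩ := gram_mm hA' (cols_eq A')
  rw [cols_eq A, det_cols] at hd
  rw [cols_eq A', det_cols] at hd'
  have hw := wit_of_mem hx
  have hw' := wit_of_mem hx'
  simp only [toPair, Prod.mk.injEq] at h
  obtain ⟨hv, hwv⟩ := h
  rw [cols_eq A, cols_eq A']
  rw [← hv] at h1' h2' h3' hd' hwv ⊢
  generalize (fun i => A i 0) = v at *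
  generalize (fun i => A i 1) = w at *
  generalize (fun i => A i 2) = z at *
  generalize (fun i => A' i 1) = w' at *
  generalize (fun i => A' i 2) = z' at *
  generalize (b - (e : ℤ) * μ) / (n1 : ℤ) = k at hwv
  generalize (b - (e' : ℤ) * μ') / (n1 : ℤ) = k' at hwv
  -- the content
  have c1 := congrArg (crs v) hwv
  rw [crs_lin, crs_lin] at c1
  rw [dd3_eq] at hd hd'
  have c2 := congrArg (fun u => dt u z) c1
  have c3 := congrArg (fun u => dt u z') c1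
  simp only [smul_dt, hd, hd', mul_one] at c2 c3
  have hee : e = e' := by
    apply Nat.dvd_antisymm
    · have : (e : ℤ) ∣ e' := ⟨_, c3.symm⟩
      exact_mod_cast this
    · have : (e' : ℤ) ∣ e := ⟨_, c2⟩
      exact_mod_cast this
  subst hee
  have he0 : (e : ℤ) ≠ 0 := by exact_mod_cast hw.he.ne'
  have c4 : crs v w = crs v w' := smul_right_injective _ he0 c1
  have hyv : dt (crs w z) v = 1 := by rw [dt_comm, ← dd3_eq', dd3_eq, hd]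
  have c5 : crs v (w' - w) = 0 := by rw [crs_sub, c4, sub_self]
  have c6 := parallel hyv c5
  generalize dt (crs w z) (w' - w) = α at c6
  have c7 := congrArg (gi v) c6
  rw [gi_sub, gi_smul, h1, h2, h2'] at c7
  have hα : α = 0 := by
    have b1 : (μ : ℤ) < n1 := by exact_mod_cast hw.hμ
    have b2 : (μ' : ℤ) < n1 := by exact_mod_cast hw'.hμ
    have b3 : (0 : ℤ) ≤ μ := by positivity
    have b4 : (0 : ℤ) ≤ μ' := by positivity
    exact small c7 (by linarith) (by linarith)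
  rw [hα, zero_smul, sub_eq_zero] at c6
  subst c6
  have hμ : μ = μ' := by
    rw [h2] at h2'
    exact_mod_cast h2'
  subst hμ
  -- the third vector
  have c8 : dt (crs v w') (z' - z) = 0 := by rw [dt_sub, hd, hd', sub_self]
  have c9 := cramer3 v w' z (z' - z)
  rw [dd3_eq, hd, one_smul, dt_comm (z' - z) (crs v w'), c8, zero_smul, add_zero] at c9
  generalize dt (z' - z) (crs w' z) = p at c9
  generalize dt (z' - z) (crs z v) = q at c9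
  have d1 := congrArg (gi v) c9
  have d2 := congrArg (gi w') c9
  rw [gi_sub, gi_add, gi_smul, gi_smul, h1, h2, h3, h3'] at d1
  rw [gi_sub, gi_add, gi_smul, gi_smul, gi_comm w' v, h2, h4, h5, h5'] at d2
  obtain ⟨he, hD, hβ, hμ, hν, hb, hd1, hg, hee, hf⟩ := hw
  obtain ⟨-, -, hβ', -, hν', -, -, hg', hee', hf'⟩ := hw'
  have k1 : (n1 : ℤ) * (((μ ^ 2 + 20 * (Q / e ^ 2)) / n1 : ℕ) : ℤ) =
      μ ^ 2 + 20 * ((Q / e ^ 2 : ℕ) : ℤ) := by
    exact_mod_cast hd1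
  have k3 : (n1 : ℤ) * (((10 * β + μ * ν) / n1 : ℕ) : ℤ) = 10 * β + μ * ν := by exact_mod_cast hee
  have k3' : (n1 : ℤ) * (((10 * β' + μ * ν') / n1 : ℕ) : ℤ) = 10 * β' + μ * ν' := by
    exact_mod_cast hee'
  have b1 : (β : ℤ) < 2 * ((Q / e ^ 2 : ℕ) : ℤ) := by exact_mod_cast hβ
  have b2 : (β' : ℤ) < 2 * ((Q / e ^ 2 : ℕ) : ℤ) := by exact_mod_cast hβ'
  have b3 : (0 : ℤ) ≤ β := by positivity
  have b4 : (0 : ℤ) ≤ β' := by positivity
  have b5 : (ν : ℤ) < n1 := by exact_mod_cast hν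
  have b6 : (ν' : ℤ) < n1 := by exact_mod_cast hν'
  have b7 : (0 : ℤ) ≤ ν := by positivity
  have b8 : (0 : ℤ) ≤ ν' := by positivity
  generalize (((μ ^ 2 + 20 * (Q / e ^ 2)) / n1 : ℕ) : ℤ) = dd at *
  generalize (((10 * β + μ * ν) / n1 : ℕ) : ℤ) = ee at *
  generalize (((10 * β' + μ * ν') / n1 : ℕ) : ℤ) = ee' at *
  generalize ((Q / e ^ 2 : ℕ) : ℤ) = φ at *
  have hq : (β' : ℤ) - β = q * (2 * φ) := by
    apply mul_left_cancel₀ (by norm_num : (10 : ℤ) ≠ 0)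
    linear_combination (n1 : ℤ) * d2 - (μ : ℤ) * d1 + k3 - k3' + q * k1
  have hq0 : q = 0 := small hq (by linarith) (by linarith)
  rw [hq0, zero_mul, add_zero] at d1
  have hp0 : p = 0 := small d1 (by linarith) (by linarith)
  rw [hq0, zero_mul] at hq
  rw [hp0, zero_mul] at d1
  rw [hp0, hq0, zero_smul, zero_smul, add_zero, sub_eq_zero] at c9
  have e1 : β = β' := by exact_mod_cast (by linarith : (β : ℤ) = β')
  have e2 : ν = ν' := by exact_mod_cast (by linarith : (ν : ℤ) = ν')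
  rw [e1, e2, c9]
  exact ⟨rfl, rfl⟩

theorem toPair_surj {n1 n2 Q : ℕ} {b : ℤ} (hs : Squarefree n1) (hQ0 : 0 < Q)
    (hDD : 20 * (Q : ℤ) = n1 * n2 - b ^ 2) {v w : Fin 3 → ℤ} (hv : gi v v = n1)
    (hw : gi w w = n2) (hvw : gi v w = b) :
    ∃ (x : ℕ × ℕ × ℕ × ℕ) (A : Matrix (Fin 3) (Fin 3) ℤ),
      x ∈ XX n1 b Q ∧ (Aᵀ * GG * A = mm n1 Q x ∧ A.det = 1) ∧ toPair b n1 x A = (v, w) := by
  have hn0 : 0 < n1 := Nat.pos_of_ne_zero hs.ne_zero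
  have hn : (0 : ℤ) < n1 := by exact_mod_cast hn0
  obtain ⟨y, hy⟩ := prim_of_sqfree hs hv
  have hcc : ff (crs v w) = Q := by
    have h1 := lag_g2 v w
    rw [hv, hw, hvw, ← hDD] at h1
    linarith
  have hc0 : crs v w ≠ 0 := by
    intro h0
    rw [h0] at hcc
    simp only [ff, Pi.zero_apply] at hcc
    have : (Q : ℤ) = 0 := by rw [← hcc]; norm_num
    have : Q = 0 := by exact_mod_cast this
    omega
  obtain ⟨e, c, z0, he, hce, hz0⟩ := content (crs v w) hc0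
  have heZ : (0 : ℤ) < e := by exact_mod_cast he
  have hcv : dt c v = 0 := by
    have h1 := dt_crs_left v w
    rw [hce, smul_dt] at h1
    exact (mul_eq_zero.1 h1).resolve_left heZ.ne'
  -- the second vector
  obtain ⟨w0, hw0⟩ : ∃ w0, w0 = crs c y := ⟨_, rfl⟩
  have hvw0 : crs v w0 = c := by
    rw [hw0, dcross, hy, dt_comm v c, hcv, one_smul, zero_smul, sub_zero]
  obtain ⟨w1, hw1⟩ : ∃ w1, w1 = w0 - (gi v w0 / n1) • v := ⟨_, rfl⟩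
  have hvw1 : crs v w1 = c := by rw [hw1, crs_sub_smul, hvw0]
  have hm : gi v w1 = gi v w0 % n1 := by
    rw [hw1, gi_sub, gi_smul, hv]
    have := Int.emod_add_mul_ediv (gi v w0) n1
    linarith
  have hm0 : 0 ≤ gi v w1 := by rw [hm]; exact Int.emod_nonneg _ hn.ne'
  have hm1 : gi v w1 < n1 := by rw [hm]; exact Int.emod_lt_of_pos _ hn
  -- the determinant
  have hDc : (e : ℤ) ^ 2 * ff c = Q := by
    rw [← hcc, hce, ff_smul]
  have hc2 : 20 * ff c = n1 * gi w1 w1 - gi v w1 ^ 2 := by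
    rw [← hvw1, ← lag_g2, hv]
  have hcpos : 0 < ff c := by
    have h1 := ff_nonneg c
    rcases h1.eq_or_lt with h2 | h2
    · rw [← h2, mul_zero] at hDc
      have : Q = 0 := by exact_mod_cast hDc.symm
      omega
    · exact h2
  have hcw1 : dt c w1 = 0 := by rw [← hvw1]; exact dt_crs_right v w1
  -- the third vector
  obtain ⟨B0, hB0⟩ : ∃ B0, B0 = fi c (crs v z0) := ⟨_, rfl⟩
  obtain ⟨z1, hz1⟩ : ∃ z1, z1 = z0 - (B0 / (2 * ff c)) • w1 := ⟨_, rfl⟩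
  obtain ⟨z2, hz2⟩ : ∃ z2, z2 = z1 - (gi v z1 / n1) • v := ⟨_, rfl⟩
  have hcz : dt c z2 = 1 := by
    rw [hz2, dt_sub, dt_smul, hcv, hz1, dt_sub, dt_smul, hcw1, hz0]; ring
  have hN : gi v z2 = gi v z1 % n1 := by
    rw [hz2, gi_sub, gi_smul, hv]
    have := Int.emod_add_mul_ediv (gi v z1) n1
    linarith
  have hN0 : 0 ≤ gi v z2 := by rw [hN]; exact Int.emod_nonneg _ hn.ne'
  have hN1 : gi v z2 < n1 := by rw [hN]; exact Int.emod_lt_of_pos _ hn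
  have hB : fi c (crs v z2) = B0 % (2 * ff c) := by
    have h1 := Int.emod_add_mul_ediv B0 (2 * ff c)
    have h2 : fi c (crs v z2) = B0 - (B0 / (2 * ff c)) * (2 * ff c) := by
      rw [hz2, crs_sub_smul, hz1, crs_sub, crs_smul, hvw1, fi_sub, fi_smul, fi_self, hB0]
    linarith
  have hβ0 : 0 ≤ fi c (crs v z2) := by
    rw [hB]; exact Int.emod_nonneg _ (by linarith)
  have hβ1 : fi c (crs v z2) < 2 * ff c := by
    rw [hB]; exact Int.emod_lt_of_pos _ (by linarith)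
  have hdet : dd3 v w1 z2 = 1 := by rw [dd3_eq, hvw1, hcz]
  have hB2 : n1 * gi w1 z2 - gi v w1 * gi v z2 = 10 * fi c (crs v z2) := by
    rw [← hvw1, ← lag_g v w1 v z2, hv]
  have hg2 : n1 * gi z2 z2 - gi v z2 ^ 2 = 20 * ff (crs v z2) := by
    rw [← lag_g2, hv]
  have hf2 : 4 * ff c * ff (crs v z2) = fi c (crs v z2) ^ 2 + n1 := by
    have h1 := lag_f v w1 z2
    rw [hdet, hv, hvw1, fi_self, fi_self] at h1
    linarith
  -- the coefficient of `v` in `w`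
  have hu : crs v (w - (e : ℤ) • w1) = 0 := by
    rw [crs_sub, crs_smul, hvw1, hce, sub_self]
  have hk := parallel (y := y) (by rw [dt_comm, hy]) hu
  obtain ⟨k, hkdef⟩ : ∃ k, k = dt y (w - (e : ℤ) • w1) := ⟨_, rfl⟩
  rw [← hkdef] at hk
  have hbk : b - e * gi v w1 = n1 * k := by
    have h1 := congrArg (gi v) hk
    rw [gi_sub, gi_smul, gi_smul, hv, hvw] at h1
    linarith
  -- natural numbers
  obtain ⟨μ, hμ⟩ : ∃ μ : ℕ, (μ : ℤ) = gi v w1 := ⟨_, Int.toNat_of_nonneg hm0⟩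
  obtain ⟨ν, hν⟩ : ∃ ν : ℕ, (ν : ℤ) = gi v z2 := ⟨_, Int.toNat_of_nonneg hN0⟩
  obtain ⟨β, hβ⟩ : ∃ β : ℕ, (β : ℤ) = fi c (crs v z2) :=
    ⟨_, Int.toNat_of_nonneg hβ0⟩
  obtain ⟨φ, hφ⟩ : ∃ φ : ℕ, (φ : ℤ) = ff c := ⟨_, Int.toNat_of_nonneg hcpos.le⟩
  obtain ⟨g, hg⟩ : ∃ g : ℕ, (g : ℤ) = ff (crs v z2) := ⟨_, Int.toNat_of_nonneg (ff_nonneg _)⟩
  obtain ⟨d, hd⟩ : ∃ d : ℕ, (d : ℤ) = gi w1 w1 := ⟨_, Int.toNat_of_nonneg (gi_nonneg w1)⟩
  obtain ⟨f, hf⟩ : ∃ f : ℕ, (f : ℤ) = gi z2 z2 := ⟨_, Int.toNat_of_nonneg (gi_nonneg z2)⟩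
  have hee0 : 0 ≤ gi w1 z2 := by
    by_contra hcon
    push Not at hcon
    have h1 : (n1 : ℤ) * gi w1 z2 < 0 := mul_neg_of_pos_of_neg hn hcon
    have h2 := mul_nonneg hm0 hN0
    linarith
  obtain ⟨ee, hee⟩ : ∃ ee : ℕ, (ee : ℤ) = gi w1 z2 := ⟨_, Int.toNat_of_nonneg hee0⟩
  rw [← hμ, ← hν, ← hee, ← hβ] at hB2
  rw [← hν, ← hf, ← hg] at hg2
  rw [← hφ, ← hg, ← hβ] at hf2
  rw [← hφ, ← hd, ← hμ] at hc2
  have hW : Wit n1 b Q e μ β ν φ d ee g f := by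
    refine ⟨he, ?_, ?_, ?_, ?_, ?_, ?_, ?_, ?_, ?_⟩
    · rw [← hφ] at hDc
      exact_mod_cast hDc.symm
    · have : (β : ℤ) < 2 * φ := by rw [hβ, hφ]; exact hβ1
      exact_mod_cast this
    · have : (μ : ℤ) < n1 := by rw [hμ]; exact hm1
      exact_mod_cast this
    · have : (ν : ℤ) < n1 := by rw [hν]; exact hN1
      exact_mod_cast this
    · refine ⟨-k, ?_⟩
      rw [hμ]
      linarith
    · have : (n1 : ℤ) * d = μ ^ 2 + 20 * φ := by linarith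
      exact_mod_cast this
    · have : 4 * (φ : ℤ) * g = β ^ 2 + n1 := by linarith
      exact_mod_cast this
    · have : (n1 : ℤ) * ee = 10 * β + μ * ν := by linarith
      exact_mod_cast this
    · have : (n1 : ℤ) * f = 20 * g + ν ^ 2 := by linarith
      exact_mod_cast this
  obtain ⟨hmem, e1, e2, e3, e4⟩ := mem_of_wit hQ0 hW
  refine ⟨(e, μ, β, ν), cols v w1 z2, hmem, ⟨?_, ?_⟩, ?_⟩
  · rw [gram_iff v w1 z2 _ (mm_symm _ _ _)]
    refine ⟨hv, hμ.symm, hν.symm, ?_, ?_, ?_⟩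
    · show gi w1 w1 = (((μ ^ 2 + 20 * (Q / e ^ 2)) / n1 : ℕ) : ℤ)
      rw [e2, hd]
    · show gi w1 z2 = (((10 * β + μ * ν) / n1 : ℕ) : ℤ)
      rw [e3, hee]
    · show gi z2 z2 = (((20 * ((β ^ 2 + n1) / (4 * (Q / e ^ 2))) + ν ^ 2) / n1 : ℕ) : ℤ)
      rw [e4, hf]
  · rw [det_cols, hdet]
  · have hkk : (b - (e : ℤ) * μ) / n1 = k := by
      rw [hμ, hbk]
      exact Int.mul_ediv_cancel_left _ hn.ne'
    refine Prod.ext rfl ?_
    show (e : ℤ) • w1 + ((b - (e : ℤ) * μ) / n1) • v = w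
    rw [hkk, ← hk]
    abel

/-- CNT: the number of pairs with given Gram matrix -/
theorem t_CNT {n1 n2 Q : ℕ} {b : ℤ} (hs : Squarefree n1) (h10 : Nat.Coprime n1 10) (hQ0 : 0 < Q)
    (hDD : 20 * (Q : ℤ) = n1 * n2 - b ^ 2) :
    Nat.card (Pairs n1 n2 b) = 6 * (XX n1 b Q).card := by
  rw [← card_fr hs h10 b Q]
  symm
  refine Nat.card_eq_of_bijective (fun p : Fr n1 b Q => (⟨toPair b n1 p.1.1 p.2.1,
    toPair_mem hDD p.1.2 p.2.2.1⟩ : Pairs n1 n2 b)) ⟨?_, ?_⟩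
  · rintro ⟨⟨⟨e, μ, β, ν⟩, hx⟩, ⟨A, hA⟩⟩ ⟨⟨⟨e', μ', β', ν'⟩, hx'⟩, ⟨A', hA'⟩⟩ heq
    have h1 := congrArg Subtype.val heq
    obtain ⟨h2, h3⟩ := toPair_inj hx hx' hA.1 hA.2 hA'.1 hA'.2 h1
    simp only [Prod.mk.injEq] at h2
    obtain ⟨rfl, rfl, rfl, rfl⟩ := h2
    subst h3
    rfl
  · rintro ⟨⟨v, w⟩, hv, hw, hvw⟩
    obtain ⟨x, A, hx, hA, hp⟩ := toPair_surj hs hQ0 hDD hv hw hvw
    exact ⟨⟨⟨x, hx⟩, ⟨A, hA⟩⟩, Subtype.ext hp⟩

/-- there are no pairs unless twenty divides the determinant -/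
theorem no_pairs {n1 n2 D : ℕ} {b : ℤ} (hDD : (D : ℤ) = n1 * n2 - b ^ 2) (h : ¬ 20 ∣ D) :
    Nat.card (Pairs n1 n2 b) = 0 := by
  haveI : IsEmpty (Pairs n1 n2 b) := by
    refine ⟨?_⟩
    rintro ⟨⟨v, w⟩, hv, hw, hvw⟩
    have h1 := lag_g2 v w
    simp only at hv hw hvw
    rw [hv, hw, hvw, ← hDD] at h1
    apply h
    have : (20 : ℤ) ∣ (D : ℤ) := ⟨_, h1⟩
    exact_mod_cast this
  exact Nat.card_of_isEmpty

/-- no vectors of norm `±1` modulo five -/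
theorem no_vec {n1 : ℕ} {v : Fin 3 → ℤ} (hv : gi v v = n1) : ¬ (n1 % 5 = 1 ∨ n1 % 5 = 4) := by
  have h := three_gi v
  rw [hv] at h
  generalize 3 * v 0 - v 1 - v 2 = u at h
  generalize v 1 ^ 2 - v 1 * v 2 + v 2 ^ 2 = q at h
  have h1 : (3 * (n1 : ℤ)) % 5 = (u ^ 2) % 5 := by
    rw [h]; omega
  have h2 : u ^ 2 % 5 = 0 ∨ u ^ 2 % 5 = 1 ∨ u ^ 2 % 5 = 4 := by
    have h3 : u % 5 = 0 ∨ u % 5 = 1 ∨ u % 5 = 2 ∨ u % 5 = 3 ∨ u % 5 = 4 := by omega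
    rcases h3 with h3 | h3 | h3 | h3 | h3 <;> simp [pow_two, Int.mul_emod, h3]
  omega

end Pool.Agent.N972.PC15
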