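import Mathlib
import Pool.Agent.Y155.Z7.XC

/-!
# The number of solutions of `t² + t + k = 0` and the sum over the square divisors
(project X15, part PC15)
-/

set_option autoImplicit false

namespace Pool.Agent.N972.PC15

open Finset ArithmeticFunction
open Pool.Agent.Y155.Z7 (R R_eq SQ SQ_apply SQ_mult SQ_pow S S_pow S_unram S_ram)

/-- the number of solutions of `t² + t + k = 0` modulo `m` -/
noncomputable def P (k m : ℕ) : ℕ := Nat.card {x : ZMod m // x ^ 2 + x + (k : ZMod m) = 0}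

theorem P_zero {k : ℕ} (hk : 0 < k) : P k 0 = 0 := by
  unfold P
  have : IsEmpty {x : ZMod 0 // x ^ 2 + x + (k : ZMod 0) = 0} := by
    have key : ∀ y : ℤ, ¬ (y ^ 2 + y + (k : ℤ) = 0) := by
      intro y hy
      have h2 : (0 : ℤ) < k := by exact_mod_cast hk
      rcases le_or_gt 0 y with h | h
      · nlinarith [sq_nonneg y]
      · nlinarith
    exact ⟨fun x => key x.1 x.2⟩
  exact Nat.card_of_isEmpty

theorem P_one (k : ℕ) : P k 1 = 1 := by
  unfold P
  rw [Nat.card_eq_one_iff_unique]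
  refine ⟨⟨fun a b => Subtype.ext (Subsingleton.elim _ _)⟩, ⟨⟨0, Subsingleton.elim _ _⟩⟩⟩

theorem P_mul (k : ℕ) {a b : ℕ} (h : a.Coprime b) : P k (a * b) = P k a * P k b := by
  unfold P
  rw [← Nat.card_prod]
  refine Nat.card_congr (Equiv.trans ?_ (Equiv.subtypeProdEquivProd (p := fun x : ZMod a =>
    x ^ 2 + x + (k : ZMod a) = 0) (q := fun x : ZMod b => x ^ 2 + x + (k : ZMod b) = 0)))
  refine Equiv.subtypeEquiv (ZMod.chineseRemainder h).toEquiv fun x => ?_
  have h1 : x ^ 2 + x + (k : ZMod (a * b)) = 0 ↔ ZMod.chineseRemainder h (x ^ 2 + x + k) = 0 :=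
    (map_eq_zero_iff _ (ZMod.chineseRemainder h).injective).symm
  rw [h1, map_add, map_add, map_pow, map_natCast, Prod.ext_iff]
  rfl

/-- the number of solutions as the number of residues -/
theorem P_eq (k m : ℕ) (hm : 0 < m) :
    P k m = ((range m).filter fun x => m ∣ x ^ 2 + x + k).card := by
  classical
  have : NeZero m := ⟨hm.ne'⟩
  unfold P
  rw [Nat.card_eq_fintype_card, Fintype.card_subtype]
  refine (Finset.card_nbij' (fun x : ℕ => (x : ZMod m)) (fun x : ZMod m => x.val) ?_ ?_ ?_ ?_).symm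
  · intro x hx
    have hx := Finset.mem_filter.1 (Finset.mem_coe.1 hx)
    refine Finset.mem_coe.2 (Finset.mem_filter.2 ⟨Finset.mem_univ _, ?_⟩)
    have := (ZMod.natCast_eq_zero_iff (x ^ 2 + x + k) m).2 hx.2
    push_cast at this
    exact this
  · intro x hx
    have hx := Finset.mem_filter.1 (Finset.mem_coe.1 hx)
    refine Finset.mem_coe.2 (Finset.mem_filter.2 ⟨Finset.mem_range.2 (ZMod.val_lt x), ?_⟩)
    refine (ZMod.natCast_eq_zero_iff _ m).1 ?_
    push_cast
    rw [ZMod.natCast_zmod_val]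
    exact hx.2
  · intro x hx
    exact ZMod.val_cast_of_lt (Finset.mem_range.1 (Finset.mem_filter.1 (Finset.mem_coe.1 hx)).1)
  · intro x _
    exact ZMod.natCast_zmod_val x

/-- the square roots of `- n1` modulo `4 φ`, up to `2 φ` -/
theorem card_beta {n1 k : ℕ} (hk : n1 + 1 = 4 * k) (φ : ℕ) (hφ : 0 < φ) :
    ((range (2 * φ)).filter fun β => 4 * φ ∣ β ^ 2 + n1).card = P k φ := by
  rw [P_eq k φ hφ]
  have key : ∀ t : ℕ, (2 * t + 1) ^ 2 + n1 = 4 * (t ^ 2 + t + k) := by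
    intro t
    have : (2 * t + 1) ^ 2 + n1 = 4 * (t ^ 2 + t) + (n1 + 1) := by ring
    rw [this, hk]
    ring
  symm
  refine Finset.card_nbij (fun t => 2 * t + 1) ?_ ?_ ?_
  · intro t ht
    have ht := Finset.mem_filter.1 (Finset.mem_coe.1 ht)
    refine Finset.mem_coe.2 (Finset.mem_filter.2 ⟨Finset.mem_range.2 ?_, ?_⟩)
    · have := Finset.mem_range.1 ht.1
      show 2 * t + 1 < 2 * φ
      omega
    · show 4 * φ ∣ (2 * t + 1) ^ 2 + n1
      rw [key]
      exact Nat.mul_dvd_mul_left 4 ht.2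
  · intro t _ t' _ h
    have : 2 * t + 1 = 2 * t' + 1 := h
    omega
  · intro β hβ
    have hβ := Finset.mem_filter.1 (Finset.mem_coe.1 hβ)
    have h4 : 4 ∣ β ^ 2 + n1 := (Dvd.intro _ rfl).trans hβ.2
    have hodd : ∃ t, β = 2 * t + 1 := by
      rcases Nat.even_or_odd' β with ⟨t, ht | ht⟩
      · exfalso
        have e : β ^ 2 + n1 + 1 = 4 * (t ^ 2 + k) := by
          rw [add_assoc, hk, ht]; ring
        omega
      · exact ⟨t, ht⟩
    obtain ⟨t, rfl⟩ := hodd
    refine ⟨t, Finset.mem_coe.2 (Finset.mem_filter.2 ⟨Finset.mem_range.2 ?_, ?_⟩), rfl⟩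
    · have := Finset.mem_range.1 hβ.1
      omega
    · have h1 := hβ.2
      rw [key] at h1
      exact Nat.dvd_of_mul_dvd_mul_left (by norm_num) h1

/-- odd moduli -/
theorem P_odd {n1 k : ℕ} (hk : n1 + 1 = 4 * k) (m : ℕ) (hm : Nat.Coprime 2 m) : P k m = R n1 m := by
  unfold P R
  let u : (ZMod m)ˣ := ZMod.unitOfCoprime 2 hm
  have hu : (u : ZMod m) = 2 := by
    show ((2 : ℕ) : ZMod m) = 2
    norm_num
  have hn : (n1 : ZMod m) = 4 * k - 1 := by
    have : ((n1 + 1 : ℕ) : ZMod m) = ((4 * k : ℕ) : ZMod m) := by rw [hk]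
    push_cast at this
    rw [← this]; ring
  let E : ZMod m ≃ ZMod m := (Units.mulLeft u).trans (Equiv.addRight (1 : ZMod m))
  have hE : ∀ x, E x = 2 * x + 1 := by
    intro x
    show (u : ZMod m) * x + 1 = 2 * x + 1
    rw [hu]
  refine Nat.card_congr (Equiv.subtypeEquiv E fun x => ?_)
  rw [hE, hn]
  have e : (2 * x + 1) ^ 2 + (4 * (k : ZMod m) - 1) = (u : ZMod m) * (u : ZMod m) * (x ^ 2 + x + k) := by
    rw [hu]; ring
  rw [e]
  constructor
  · intro h
    rw [h, mul_zero]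
  · intro h
    rw [mul_assoc, Units.mul_right_eq_zero, Units.mul_right_eq_zero] at h
    exact h

theorem P_two_odd (k : ℕ) (hk : k % 2 = 1) (a : ℕ) : P k (2 ^ (a + 1)) = 0 := by
  rw [P_eq k _ (pow_pos two_pos _), Finset.card_eq_zero, Finset.filter_eq_empty_iff]
  intro x _ hx
  have h1 : 2 ∣ x ^ 2 + x + k := (dvd_pow_self 2 (Nat.succ_ne_zero a)).trans hx
  have h2 : 2 ∣ x ^ 2 + x := by
    have : x ^ 2 + x = x * (x + 1) := by ring
    rw [this]
    exact (Nat.even_mul_succ_self x).two_dvd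
  omega

theorem P_two_one (k : ℕ) (hk : k % 2 = 0) : P k 2 = 2 := by
  rw [P_eq k 2 two_pos]
  have : (range 2).filter (fun x => 2 ∣ x ^ 2 + x + k) = range 2 := by
    rw [Finset.filter_true_of_mem]
    intro x _
    have h2 : 2 ∣ x ^ 2 + x := by
      have : x ^ 2 + x = x * (x + 1) := by ring
      rw [this]
      exact (Nat.even_mul_succ_self x).two_dvd
    omega
  rw [this, Finset.card_range]

/-- Hensel's lemma at two -/
theorem P_two_succ (k : ℕ) (a : ℕ) : P k (2 ^ (a + 1 + 1)) = P k (2 ^ (a + 1)) := by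
  have p1 : 0 < 2 ^ (a + 1) := pow_pos two_pos _
  have p2 : 0 < 2 ^ (a + 1 + 1) := pow_pos two_pos _
  have hpp : 2 ^ (a + 1 + 1) = 2 * 2 ^ (a + 1) := by rw [pow_succ (2 : ℕ) (a + 1), mul_comm]
  have hp0 : 2 ^ (a + 1) = 2 * 2 ^ a := by rw [pow_succ (2 : ℕ) a, mul_comm]
  rw [P_eq k _ p1, P_eq k _ p2]
  obtain ⟨q, hq⟩ : ∃ q, q = 2 ^ (a + 1) := ⟨_, rfl⟩
  have hq2 : 2 ∣ q := ⟨2 ^ a, by rw [hq, hp0]⟩
  rw [hpp, ← hq]
  rw [← hq] at p1
  -- the shift by `q`
  have shift : ∀ x : ℕ, (x + q) ^ 2 + (x + q) + k = (x ^ 2 + x + k) + q + q * (2 * x + q) := by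
    intro x; ring
  refine Finset.card_nbij (fun x => x % q) ?_ ?_ ?_
  · intro x hx
    have hx := Finset.mem_filter.1 (Finset.mem_coe.1 hx)
    refine Finset.mem_coe.2 (Finset.mem_filter.2 ⟨Finset.mem_range.2 (Nat.mod_lt _ p1), ?_⟩)
    have h1 : q ∣ x ^ 2 + x + k := (Dvd.intro_left _ rfl).trans hx.2
    have h2 : (x % q) ^ 2 + x % q + k ≡ x ^ 2 + x + k [MOD q] :=
      Nat.ModEq.add_right _ (((Nat.mod_modEq _ _).pow 2).add (Nat.mod_modEq _ _))
    exact (Nat.modEq_zero_iff_dvd.1 (h2.trans (Nat.modEq_zero_iff_dvd.2 h1)))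
  · have main : ∀ x y : ℕ, x < q → y = x + q → 2 * q ∣ x ^ 2 + x + k →
        ¬ 2 * q ∣ y ^ 2 + y + k := by
      intro x y _ hy hx h
      rw [hy, shift] at h
      obtain ⟨c, hc⟩ := hq2
      have h3 : 2 * q ∣ q * (2 * x + q) := by
        refine ⟨x + c, ?_⟩
        rw [hc]; ring
      have h4 : 2 * q ∣ (x ^ 2 + x + k) + q := (Nat.dvd_add_left h3).1 h
      have h5 : 2 * q ∣ q := (Nat.dvd_add_right hx).1 h4
      have := Nat.le_of_dvd p1 h5
      omega
    intro x hx y hy hxy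
    have hx := Finset.mem_filter.1 (Finset.mem_coe.1 hx)
    have hy := Finset.mem_filter.1 (Finset.mem_coe.1 hy)
    have hx1 := Finset.mem_range.1 hx.1
    have hy1 := Finset.mem_range.1 hy.1
    have hxy : x % q = y % q := hxy
    have dx := Nat.div_add_mod x q
    have dy := Nat.div_add_mod y q
    have bx : x / q < 2 := Nat.div_lt_of_lt_mul (by rw [mul_comm]; exact hx1)
    have by' : y / q < 2 := Nat.div_lt_of_lt_mul (by rw [mul_comm]; exact hy1)
    have mx := Nat.mod_lt x p1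
    rcases Nat.lt_or_ge x q with h1 | h1 <;> rcases Nat.lt_or_ge y q with h2 | h2
    · rw [Nat.mod_eq_of_lt h1, Nat.mod_eq_of_lt h2] at hxy
      exact hxy
    · exfalso
      refine main x y h1 ?_ hx.2 hy.2
      rw [Nat.mod_eq_of_lt h1, Nat.mod_eq_sub_mod h2, Nat.mod_eq_of_lt (by omega)] at hxy
      omega
    · exfalso
      refine main y x h2 ?_ hy.2 hx.2
      rw [Nat.mod_eq_of_lt h2, Nat.mod_eq_sub_mod h1, Nat.mod_eq_of_lt (by omega)] at hxy
      omega
    · rw [Nat.mod_eq_sub_mod h1, Nat.mod_eq_of_lt (by omega), Nat.mod_eq_sub_mod h2,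
        Nat.mod_eq_of_lt (by omega)] at hxy
      omega
  · intro x hx
    have hx := Finset.mem_filter.1 (Finset.mem_coe.1 hx)
    have hx1 := Finset.mem_range.1 hx.1
    obtain ⟨c, hc⟩ := hx.2
    rcases Nat.even_or_odd' c with ⟨d, hd | hd⟩
    · refine ⟨x, Finset.mem_coe.2 (Finset.mem_filter.2 ⟨Finset.mem_range.2 (by omega), ?_⟩),
        Nat.mod_eq_of_lt hx1⟩
      exact ⟨d, by rw [hc, hd]; ring⟩
    · refine ⟨x + q, Finset.mem_coe.2 (Finset.mem_filter.2 ⟨Finset.mem_range.2 (by omega), ?_⟩), ?_⟩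
      · rw [shift, hc, hd]
        obtain ⟨c', hc'⟩ := hq2
        refine ⟨d + 1 + x + c', ?_⟩
        have : q * (2 * x + q) = 2 * q * (x + c') := by
          have : 2 * x + q = 2 * (x + c') := by omega
          rw [this]; ring
        rw [this]
        ring
      · show (x + q) % q = x
        rw [Nat.add_mod_right, Nat.mod_eq_of_lt hx1]

theorem P_two_even (k : ℕ) (hk : k % 2 = 0) (a : ℕ) : P k (2 ^ (a + 1)) = 2 := by
  induction a with
  | zero => rw [zero_add, pow_one, P_two_one k hk]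
  | succ a ih => rw [P_two_succ, ih]

/-- the sign at two -/
def sg2 (k : ℕ) : ℤ := if k % 2 = 0 then 1 else -1

theorem P_two (k a : ℕ) : (P k (2 ^ (a + 1)) : ℤ) = 1 + sg2 k := by
  unfold sg2
  split_ifs with h
  · rw [P_two_even k h]; norm_num
  · rw [P_two_odd k (by omega)]; norm_num

/-- the number of solutions as an arithmetic function -/
noncomputable def PA (k : ℕ) (hk : 0 < k) : ArithmeticFunction ℕ := ⟨P k, P_zero hk⟩

theorem PA_apply (k : ℕ) (hk : 0 < k) (m : ℕ) : PA k hk m = P k m := rfl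

theorem PA_mult (k : ℕ) (hk : 0 < k) : (PA k hk).IsMultiplicative :=
  ⟨P_one k, fun h => P_mul k h⟩

/-- the sum over `e` -/
noncomputable def U (k Q : ℕ) : ℕ :=
  ∑ e ∈ (range (Q + 1)).filter fun e => 0 < e ∧ e ^ 2 ∣ Q, P k (Q / e ^ 2)

theorem U_eq (k : ℕ) (hk : 0 < k) (D : ℕ) (hD : 0 < D) : U k D = (SQ * PA k hk) D := by
  classical
  rw [ArithmeticFunction.mul_apply, U]
  have h1 : ∀ x ∈ D.divisorsAntidiagonal, SQ x.1 * PA k hk x.2 =
      if IsSquare x.1 then P k x.2 else 0 := by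
    intro x hx
    rw [SQ_apply, PA_apply]
    have := (Nat.mem_divisorsAntidiagonal.1 hx)
    have h2 : x.1 ≠ 0 := by
      intro h
      rw [h, zero_mul] at this
      exact this.2 this.1.symm
    by_cases h3 : IsSquare x.1 <;> simp [h2, h3]
  rw [Finset.sum_congr rfl h1, ← Finset.sum_filter]
  refine Finset.sum_nbij (fun e => (e ^ 2, D / e ^ 2)) ?_ ?_ ?_ ?_
  · intro e he
    have he := Finset.mem_filter.1 he
    refine Finset.mem_filter.2 ⟨Nat.mem_divisorsAntidiagonal.2 ⟨Nat.mul_div_cancel' he.2.2, hD.ne'⟩,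
      ⟨e, pow_two e⟩⟩
  · intro e he e' he' h
    have h2 : e ^ 2 = e' ^ 2 := (Prod.ext_iff.1 h).1
    exact (Nat.pow_left_injective (n := 2) two_ne_zero) h2
  · intro x hx
    have hx := Finset.mem_filter.1 (Finset.mem_coe.1 hx)
    obtain ⟨e, he⟩ := hx.2
    have h3 := Nat.mem_divisorsAntidiagonal.1 hx.1
    rw [← pow_two] at he
    have he0 : 0 < e := by
      rcases Nat.eq_zero_or_pos e with h | h
      · rw [he, h] at h3
        exact absurd h3.1.symm (by simpa using hD.ne')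
      · exact h
    have hdvd : e ^ 2 ∣ D := ⟨x.2, by rw [← he]; exact h3.1.symm⟩
    refine ⟨e, Finset.mem_coe.2 (Finset.mem_filter.2 ⟨Finset.mem_range.2 ?_, he0, hdvd⟩), ?_⟩
    · have := Nat.le_of_dvd hD hdvd
      nlinarith
    · refine Prod.ext he.symm ?_
      change D / e ^ 2 = x.2
      rw [← h3.1, he]
      exact Nat.mul_div_cancel_left _ (pow_pos he0 2)
  · intro e _
    rfl

theorem U_prod (k : ℕ) (hk : 0 < k) (D : ℕ) (hD : 0 < D) :
    U k D = ∏ l ∈ D.primeFactors, U k (l ^ D.factorization l) := by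
  rw [U_eq k hk D hD, IsMultiplicative.multiplicative_factorization _ (SQ_mult.mul (PA_mult k hk))
    hD.ne', Finsupp.prod, Nat.support_factorization]
  refine Finset.prod_congr rfl fun l hl => ?_
  rw [U_eq k hk _ (pow_pos (Nat.prime_of_mem_primeFactors hl).pos _)]

theorem U_pow (k : ℕ) (hk : 0 < k) (l : ℕ) (hp : l.Prime) (V : ℕ) :
    U k (l ^ V) = ∑ i ∈ range (V + 1), if Even i then P k (l ^ (V - i)) else 0 := by
  rw [U_eq k hk _ (pow_pos hp.pos _), ArithmeticFunction.mul_apply,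
    Nat.sum_divisorsAntidiagonal (fun a b => SQ a * PA k hk b), Nat.sum_divisors_prime_pow hp]
  refine Finset.sum_congr rfl fun i hi => ?_
  rw [SQ_pow l hp, PA_apply, Nat.pow_div (Nat.lt_succ_iff.1 (Finset.mem_range.1 hi)) hp.pos]
  split_ifs <;> simp

/-- odd primes -/
theorem U_odd {n1 k : ℕ} (hk : n1 + 1 = 4 * k) (hn1 : 0 < n1) (l : ℕ) (hp : l.Prime) (hl : l ≠ 2)
    (V : ℕ) : U k (l ^ V) = S n1 (l ^ V) := by
  rw [U_pow k (by omega) l hp, S_pow n1 hn1 l hp]
  refine Finset.sum_congr rfl fun i _ => ?_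
  have hc : Nat.Coprime 2 (l ^ (V - i)) :=
    Nat.Coprime.pow_right _ ((Nat.coprime_primes Nat.prime_two hp).2 (Ne.symm hl))
  rw [P_odd hk _ hc]

theorem U_step (k : ℕ) (hk : 0 < k) (l : ℕ) (hp : l.Prime) (V : ℕ) :
    U k (l ^ (V + 2)) = U k (l ^ V) + P k (l ^ (V + 2)) := by
  rw [U_pow k hk l hp, U_pow k hk l hp, Finset.sum_range_succ', Finset.sum_range_succ']
  have h1 : ∀ i ∈ range (V + 1), (if Even (i + 1 + 1) then P k (l ^ (V + 2 - (i + 1 + 1))) else 0) =
      if Even i then P k (l ^ (V - i)) else 0 := by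
    intro i _
    have e1 : V + 2 - (i + 1 + 1) = V - i := by omega
    have e2 : Even (i + 1 + 1) ↔ Even i := by
      rw [Nat.even_add_one, Nat.even_add_one, not_not]
    rw [e1]
    simp [e2]
  rw [Finset.sum_congr rfl h1]
  simp

/-- the prime two -/
theorem U_two (k : ℕ) (hk : 0 < k) (V : ℕ) : (U k (2 ^ V) : ℤ) = ∑ j ∈ range (V + 1), sg2 k ^ j := by
  have hs : sg2 k ^ 2 = 1 := by unfold sg2; split_ifs <;> norm_num
  induction V using Nat.twoStepInduction with
  | zero =>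
    rw [U_pow k hk 2 Nat.prime_two, Finset.sum_range_one, Finset.sum_range_one]
    simp [P_one]
  | one =>
    rw [U_pow k hk 2 Nat.prime_two]
    have := P_two k 0
    rw [zero_add, pow_one] at this
    simp [Finset.sum_range_succ, this]
  | more V ih _ =>
    rw [U_step k hk 2 Nat.prime_two, Nat.cast_add, ih, P_two k (V + 1),
      Finset.sum_range_succ _ (V + 2), Finset.sum_range_succ _ (V + 1)]
    have h3 : sg2 k ^ (V + 1) + sg2 k ^ (V + 2) = 1 + sg2 k := by
      rcases Nat.even_or_odd' V with ⟨m, hm | hm⟩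
      · rw [hm, pow_succ, pow_add, pow_mul, hs, one_pow]
        ring
      · rw [hm]
        have e1 : 2 * m + 1 + 1 = 2 * (m + 1) := by ring
        have e2 : 2 * m + 1 + 2 = 2 * (m + 1) + 1 := by ring
        rw [e1, e2, pow_succ, pow_mul, hs, one_pow]
        ring
    rw [add_assoc, h3]

end Pool.Agent.N972.PC15
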