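import Mathlib
import Pool.Agent.Z700.Defs
import Pool.Agent.Y155.Z7.XCc

/-!
# The number of `(μ, ν)` modulo a prime divisor of `n1` (project X15, part PC15)
-/

set_option autoImplicit false

namespace Pool.Agent.N972.PC15

open Finset ArithmeticFunction Pool.Agent.Z700
open Pool.Agent.Y155.Z7 (C card_sq J_sq split_pow fact_of hh_even hh_odd)

variable {n1 e D' β γ D l : ℕ} {n2 b : ℤ}

theorem cast_beta (hln : l ∣ n1) (hβ : β ^ 2 + 100 * n1 = D' * γ) :
    (β : ZMod l) ^ 2 = D' * γ := by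
  have f1 : (n1 : ZMod l) = 0 := (ZMod.natCast_eq_zero_iff _ _).2 hln
  have := congrArg (fun z : ℕ => (z : ZMod l)) hβ
  push_cast at this
  rw [f1, mul_zero, add_zero] at this
  exact this

theorem C_A (hp : l.Prime) (hln : l ∣ n1) (hD : (D : ℤ) = n1 * n2 - b ^ 2)
    (hDe : D = e ^ 2 * D') (hβ : β ^ 2 + 100 * n1 = D' * γ) (hl : ¬ l ∣ D) :
    C e b D' β γ l = 1 := by
  have : Fact l.Prime := ⟨hp⟩
  have f1 : (n1 : ZMod l) = 0 := (ZMod.natCast_eq_zero_iff _ _).2 hln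
  have f2 : (D : ZMod l) = -(b : ZMod l) ^ 2 := by
    have := congrArg (fun z : ℤ => (z : ZMod l)) hD
    push_cast at this
    rw [this, f1]
    ring
  have f3 : (D : ZMod l) ≠ 0 := fun h => hl ((ZMod.natCast_eq_zero_iff _ _).1 h)
  have f4 : (D : ZMod l) = (e : ZMod l) ^ 2 * D' := by
    rw [hDe]; push_cast; rfl
  have f5 : (β : ZMod l) ^ 2 = D' * γ := cast_beta hln hβ
  have f6 : (e : ZMod l) ≠ 0 := by
    intro h
    rw [h] at f4
    exact f3 (by rw [f4]; ring)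
  have f7 : (b : ZMod l) ≠ 0 := by
    intro h
    rw [h] at f2
    exact f3 (by rw [f2]; ring)
  unfold C
  rw [Nat.card_eq_one_iff_unique]
  refine ⟨⟨fun x y => Subtype.ext ?_⟩, ⟨⟨((b : ZMod l) / e, -(β : ZMod l) * e / b), ?_⟩⟩⟩
  · obtain ⟨x1, _, x3, _⟩ := x.2
    obtain ⟨y1, _, y3, _⟩ := y.2
    have h1 : x.1.1 = y.1.1 := by
      have : (e : ZMod l) * x.1.1 = e * y.1.1 := by
        rw [sub_eq_zero] at x1 y1
        rw [x1, y1]
      exact mul_left_cancel₀ f6 this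
    have h2 : x.1.1 ≠ 0 := by
      intro h
      rw [h, mul_zero, zero_sub, neg_eq_zero] at x1
      exact f7 x1
    refine Prod.ext h1 ?_
    have : x.1.1 * x.1.2 = x.1.1 * y.1.2 := by
      rw [← h1] at y3
      have := x3.trans y3.symm
      exact add_left_cancel this
    exact mul_left_cancel₀ h2 this
  · have g1 : (D' : ZMod l) = -(b : ZMod l) ^ 2 / e ^ 2 := by
      field_simp
      rw [← f2, f4]
      ring
    refine ⟨?_, ?_, ?_, ?_⟩
    · change (e : ZMod l) * ((b : ZMod l) / e) - b = 0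
      field_simp
      ring
    · change ((b : ZMod l) / e) ^ 2 + (D' : ZMod l) = 0
      rw [g1]
      field_simp
      ring
    · change (β : ZMod l) + (b : ZMod l) / e * (-(β : ZMod l) * e / b) = 0
      field_simp
      ring
    · change (γ : ZMod l) + (-(β : ZMod l) * e / b) ^ 2 = 0
      have g2 : (γ : ZMod l) = -(β : ZMod l) ^ 2 * e ^ 2 / b ^ 2 := by
        rw [f5, g1]
        field_simp
      rw [g2]
      field_simp
      ring

theorem C_B (hp : l.Prime) (hl2 : l ≠ 2) (hln : l ∣ n1) (hD : (D : ℤ) = n1 * n2 - b ^ 2)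
    (hDe : D = e ^ 2 * D') (hβ : β ^ 2 + 100 * n1 = D' * γ) (hl : l ∣ D) (hl' : ¬ l ∣ D') :
    (C e b D' β γ l : ℤ) = 1 + jacobiSym (-(D' : ℤ)) l := by
  have : Fact l.Prime := ⟨hp⟩
  have f1 : (n1 : ZMod l) = 0 := (ZMod.natCast_eq_zero_iff _ _).2 hln
  have f2 : (D : ZMod l) = -(b : ZMod l) ^ 2 := by
    have := congrArg (fun z : ℤ => (z : ZMod l)) hD
    push_cast at this
    rw [this, f1]
    ring
  have f3 : (D : ZMod l) = 0 := (ZMod.natCast_eq_zero_iff _ _).2 hl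
  have f4 : (D : ZMod l) = (e : ZMod l) ^ 2 * D' := by
    rw [hDe]; push_cast; rfl
  have f5 : (β : ZMod l) ^ 2 = D' * γ := cast_beta hln hβ
  have f0 : (D' : ZMod l) ≠ 0 := fun h => hl' ((ZMod.natCast_eq_zero_iff _ _).1 h)
  have f6 : (e : ZMod l) = 0 := by
    rw [f3] at f4
    rcases mul_eq_zero.1 f4.symm with h | h
    · exact pow_eq_zero_iff two_ne_zero |>.1 h
    · exact absurd h f0
  have f7 : (b : ZMod l) = 0 := by
    rw [f3] at f2
    exact pow_eq_zero_iff two_ne_zero |>.1 (neg_eq_zero.1 f2.symm)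
  rw [← card_sq l hl2]
  unfold C
  congr 1
  refine Nat.card_congr ⟨fun q => ⟨q.1.1, ?_⟩, fun x => ⟨(x.1, -(β : ZMod l) / x.1), ?_⟩, ?_, ?_⟩
  · have := q.2.2.1
    push_cast
    exact eq_neg_of_add_eq_zero_left this
  · have hx : x.1 ^ 2 = -(D' : ZMod l) := by
      have := x.2
      push_cast at this
      exact this
    have hx0 : x.1 ≠ 0 := by
      intro h
      rw [h] at hx
      exact f0 (by linear_combination hx)
    refine ⟨?_, ?_, ?_, ?_⟩
    · change (e : ZMod l) * x.1 - b = 0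
      rw [f6, f7]
      ring
    · change x.1 ^ 2 + (D' : ZMod l) = 0
      rw [hx]
      ring
    · change (β : ZMod l) + x.1 * (-(β : ZMod l) / x.1) = 0
      field_simp
      ring
    · change (γ : ZMod l) + (-(β : ZMod l) / x.1) ^ 2 = 0
      rw [div_pow, hx, neg_sq, f5]
      field_simp
      ring
  · intro q
    refine Subtype.ext (Prod.ext rfl ?_)
    change -(β : ZMod l) / q.1.1 = q.1.2
    have h2 := q.2.2.1
    have h3 := q.2.2.2.1
    have hx0 : q.1.1 ≠ 0 := by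
      intro h
      rw [h] at h2
      exact f0 (by linear_combination h2)
    rw [div_eq_iff hx0]
    linear_combination -h3
  · intro x
    rfl

theorem C_C (hp : l.Prime) (hl2 : l ≠ 2) (hln : l ∣ n1) (hD : (D : ℤ) = n1 * n2 - b ^ 2)
    (hDe : D = e ^ 2 * D') (hβ : β ^ 2 + 100 * n1 = D' * γ) (hl' : l ∣ D') :
    (C e b D' β γ l : ℤ) = 1 + jacobiSym (-(γ : ℤ)) l := by
  have : Fact l.Prime := ⟨hp⟩
  have f1 : (n1 : ZMod l) = 0 := (ZMod.natCast_eq_zero_iff _ _).2 hln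
  have f2 : (D : ZMod l) = -(b : ZMod l) ^ 2 := by
    have := congrArg (fun z : ℤ => (z : ZMod l)) hD
    push_cast at this
    rw [this, f1]
    ring
  have f3 : (D : ZMod l) = 0 := (ZMod.natCast_eq_zero_iff _ _).2 (hDe ▸ Dvd.dvd.mul_left hl' _)
  have f5 : (β : ZMod l) ^ 2 = D' * γ := cast_beta hln hβ
  have f0 : (D' : ZMod l) = 0 := (ZMod.natCast_eq_zero_iff _ _).2 hl'
  have f6 : (β : ZMod l) = 0 := by
    rw [f0, zero_mul] at f5
    exact pow_eq_zero_iff two_ne_zero |>.1 f5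
  have f7 : (b : ZMod l) = 0 := by
    rw [f3] at f2
    exact pow_eq_zero_iff two_ne_zero |>.1 (neg_eq_zero.1 f2.symm)
  rw [← card_sq l hl2]
  unfold C
  congr 1
  refine Nat.card_congr ⟨fun q => ⟨q.1.2, ?_⟩, fun x => ⟨(0, x.1), ?_⟩, ?_, ?_⟩
  · have := q.2.2.2.2
    push_cast
    exact eq_neg_of_add_eq_zero_right this
  · have hx : x.1 ^ 2 = -(γ : ZMod l) := by
      have := x.2
      push_cast at this
      exact this
    refine ⟨?_, ?_, ?_, ?_⟩
    · change (e : ZMod l) * 0 - b = 0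
      rw [f7]
      ring
    · change (0 : ZMod l) ^ 2 + (D' : ZMod l) = 0
      rw [f0]
      ring
    · change (β : ZMod l) + 0 * x.1 = 0
      rw [f6]
      ring
    · change (γ : ZMod l) + x.1 ^ 2 = 0
      rw [hx]
      ring
  · intro q
    refine Subtype.ext (Prod.ext ?_ rfl)
    change 0 = q.1.1
    have h2 := q.2.2.1
    rw [f0, add_zero] at h2
    exact (pow_eq_zero_iff two_ne_zero |>.1 h2).symm
  · intro x
    rfl

theorem C_local (hp : l.Prime) (hl2 : l ≠ 2) (hl5 : ¬ l ∣ 10) (hln : l ∣ n1) (hl3 : ¬ l ^ 2 ∣ n1)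
    (hD0 : 0 < D) (hD : (D : ℤ) = n1 * n2 - b ^ 2) (hDe : D = e ^ 2 * D')
    (hβ : β ^ 2 + 100 * n1 = D' * γ) :
    (C e b D' β γ l : ℤ) = if l ∣ D then 1 + hh n1 D l else 1 := by
  split_ifs with h
  · by_cases h1 : l ∣ D'
    · rw [C_C hp hl2 hln hD hDe hβ h1]
      obtain ⟨D1, hD1⟩ := h1
      have h2 : l ∣ β := by
        have : l ∣ β ^ 2 := (Nat.dvd_add_left (hln.mul_left 100)).1
          (by rw [hβ, hD1]; exact ⟨D1 * γ, by ring⟩)
        exact hp.dvd_of_dvd_pow this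
      obtain ⟨β1, hβ1⟩ := h2
      obtain ⟨m, hm⟩ := hln
      have h3 : l * β1 ^ 2 + 100 * m = D1 * γ := by
        have : l * (l * β1 ^ 2 + 100 * m) = l * (D1 * γ) := by
          rw [hβ1, hm, hD1] at hβ
          linarith
        exact Nat.eq_of_mul_eq_mul_left hp.pos this
      have h4 : ¬ l ∣ D1 := by
        intro h5
        have h6 : l ∣ 10 ^ 2 * m := (Nat.dvd_add_right (Dvd.intro (β1 ^ 2) rfl)).1 (by
          have e : l * β1 ^ 2 + 10 ^ 2 * m = D1 * γ := by rw [← h3]; norm_num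
          rw [e]; exact h5.mul_right γ)
        rcases hp.dvd_mul.1 h6 with h7 | h7
        · exact hl5 (hp.dvd_of_dvd_pow h7)
        · exact hl3 (by rw [hm, pow_two]; exact Nat.mul_dvd_mul_left l h7)
      rw [hh_odd l hp n1 e D1 D (by rw [hDe, hD1]) hD0 h4, ← J_sq l hp (-(γ : ℤ)) D1 h4,
        ← J_sq l hp (-((n1 / l : ℕ) * D1 : ℤ)) 10 hl5]
      congr 1
      refine jacobiSym.mod_left' ?_
      have h5 : n1 / l = m := by
        rw [hm]
        exact Nat.mul_div_cancel_left m hp.pos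
      rw [h5]
      refine Int.modEq_iff_dvd.2 ⟨(β1 : ℤ) ^ 2 * D1, ?_⟩
      have h6 : (l : ℤ) * (β1 : ℤ) ^ 2 + 100 * m = D1 * γ := by exact_mod_cast h3
      push_cast
      linear_combination (-(D1 : ℤ)) * h6
    · rw [C_B hp hl2 hln hD hDe hβ h h1, hh_even l hp n1 e D' D hDe hD0 h1]
  · rw [C_A hp hln hD hDe hβ h, Nat.cast_one]

end Pool.Agent.N972.PC15
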