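import Mathlib
import Pool.Agent.N969.P15.Defs
import Pool.Agent.N972.PC15.Cnt
import Pool.Agent.N972.PC15.XCa
import Pool.Agent.N972.PC15.XCc

/-!
# The number of pairs with given Gram matrix (project X15, part PC15)
-/

set_option autoImplicit false

namespace Pool.Agent.N972.PC15

open Finset
open Pool.Agent.Z700 (hh fac)
open Pool.Agent.Y155.Z7 (C C_eq C_prod S S_unram S_ram)
open Pool.Agent.N969.P15 (ip vec cp tw loc S_PC)

/-- the pairs `(e, β)` -/
def TT (n1 Q : ℕ) : Finset (ℕ × ℕ) :=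
  ((range (Q + 1)).filter fun e => 0 < e ∧ e ^ 2 ∣ Q).biUnion fun e =>
    ((range (2 * (Q / e ^ 2))).filter fun β => 4 * (Q / e ^ 2) ∣ β ^ 2 + n1).image
      fun β => (e, β)

theorem mem_TT (n1 Q : ℕ) (t : ℕ × ℕ) : t ∈ TT n1 Q ↔ t.1 < Q + 1 ∧ 0 < t.1 ∧ t.1 ^ 2 ∣ Q ∧
    t.2 < 2 * (Q / t.1 ^ 2) ∧ 4 * (Q / t.1 ^ 2) ∣ t.2 ^ 2 + n1 := by
  unfold TT
  rw [Finset.mem_biUnion]
  constructor
  · rintro ⟨e, he, ht⟩
    obtain ⟨β, hβ, rfl⟩ := Finset.mem_image.1 ht
    have he := Finset.mem_filter.1 he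
    have hβ := Finset.mem_filter.1 hβ
    exact ⟨Finset.mem_range.1 he.1, he.2.1, he.2.2, Finset.mem_range.1 hβ.1, hβ.2⟩
  · rintro ⟨h1, h2, h3, h4, h5⟩
    exact ⟨t.1, Finset.mem_filter.2 ⟨Finset.mem_range.2 h1, h2, h3⟩, Finset.mem_image.2
      ⟨t.2, Finset.mem_filter.2 ⟨Finset.mem_range.2 h4, h5⟩, rfl⟩⟩

theorem card_TT {n1 k : ℕ} (hk : n1 + 1 = 4 * k) (Q : ℕ) (hQ : 0 < Q) :
    (TT n1 Q).card = U k Q := by
  unfold TT U
  rw [Finset.card_biUnion]
  · refine Finset.sum_congr rfl fun e he => ?_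
    have he := Finset.mem_filter.1 he
    rw [← card_beta hk _ (Nat.div_pos (Nat.le_of_dvd hQ he.2.2) (pow_pos he.2.1 2))]
    exact Finset.card_image_of_injective _ fun x y h => (Prod.ext_iff.1 h).2
  · intro e _ e' _ hee
    rw [Function.onFun, Finset.disjoint_left]
    intro t ht ht'
    obtain ⟨β, _, rfl⟩ := Finset.mem_image.1 ht
    obtain ⟨β', _, h⟩ := Finset.mem_image.1 ht'
    exact hee (Prod.ext_iff.1 h).1.symm

/-- the fibres -/
theorem fib (n1 : ℕ) (hn1 : 0 < n1) (b : ℤ) (Q : ℕ) (t : ℕ × ℕ) (ht : t ∈ TT n1 Q) :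
    ((XX n1 b Q).filter fun q => (q.1, q.2.2.1) = t).card =
      C t.1 b (20 * (Q / t.1 ^ 2)) (10 * t.2) (20 * ((t.2 ^ 2 + n1) / (4 * (Q / t.1 ^ 2)))) n1 := by
  rw [C_eq _ _ _ _ _ _ hn1]
  obtain ⟨h1, h2, h3, h4, h5⟩ := (mem_TT n1 Q t).1 ht
  refine Finset.card_nbij' (fun q => (q.2.1, q.2.2.2)) (fun p => (t.1, p.1, t.2, p.2)) ?_ ?_ ?_ ?_
  · intro q hq
    have hq := Finset.mem_filter.1 (Finset.mem_coe.1 hq)
    obtain ⟨hq1, hq2⟩ := hq
    unfold XX at hq1
    have hq1 := Finset.mem_filter.1 hq1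
    have hq3 := Finset.mem_product.1 hq1.1
    have hq4 := Finset.mem_product.1 hq3.2
    have hq5 := Finset.mem_product.1 hq4.2
    rw [← hq2]
    exact Finset.mem_coe.2 (Finset.mem_filter.2 ⟨Finset.mem_product.2 ⟨hq4.1, hq5.2⟩,
      hq1.2.2.2.2.1, hq1.2.2.2.2.2.1, hq1.2.2.2.2.2.2.2.1, hq1.2.2.2.2.2.2.2.2⟩)
  · intro p hp
    have hp := Finset.mem_filter.1 (Finset.mem_coe.1 hp)
    have hp1 := Finset.mem_product.1 hp.1
    refine Finset.mem_coe.2 (Finset.mem_filter.2 ⟨?_, rfl⟩)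
    unfold XX
    refine Finset.mem_filter.2 ⟨Finset.mem_product.2 ⟨Finset.mem_range.2 h1, Finset.mem_product.2
      ⟨hp1.1, Finset.mem_product.2 ⟨Finset.mem_range.2 (h4.trans_le
        (Nat.mul_le_mul_left 2 (Nat.div_le_self _ _))),
        hp1.2⟩⟩⟩, h2, h3, h4, hp.2.1, hp.2.2.1, h5, hp.2.2.2.1, hp.2.2.2.2⟩
  · intro q hq
    have hq := Finset.mem_filter.1 (Finset.mem_coe.1 hq)
    obtain ⟨_, hq2⟩ := hq
    rw [← hq2]
  · intro p _
    rfl

/-- XC: the number of parameters -/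
theorem t_XC {n1 n2 k Q : ℕ} {b : ℤ} (hs : Squarefree n1) (h10 : Nat.Coprime n1 10)
    (hk : n1 + 1 = 4 * k) (hQ : 0 < Q) (hDD : 20 * (Q : ℤ) = n1 * n2 - b ^ 2) :
    ((XX n1 b Q).card : ℤ) = (U k Q : ℤ) *
      ∏ l ∈ n1.primeFactors, (if l ∣ 20 * Q then 1 + hh n1 (20 * Q) l else 1) := by
  have hn1 : 0 < n1 := Nat.pos_of_ne_zero hs.ne_zero
  have hdvd : ∀ l, l.Prime → l ∣ n1 → ¬ l ∣ 10 ∧ ¬ l ^ 2 ∣ n1 := by
    intro l hp hl
    refine ⟨fun h => ?_, ?_⟩
    · have := Nat.dvd_gcd hl h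
      rw [h10] at this
      exact hp.one_lt.ne' (Nat.dvd_one.1 this)
    · intro h
      rw [pow_two] at h
      exact hp.one_lt.ne' (Nat.isUnit_iff.1 (hs l h))
  have hD0 : 0 < 20 * Q := by omega
  have hDD' : ((20 * Q : ℕ) : ℤ) = n1 * n2 - b ^ 2 := by
    push_cast
    exact hDD
  -- the fibres
  have h1 : ∀ t ∈ TT n1 Q, (((XX n1 b Q).filter fun q => (q.1, q.2.2.1) = t).card : ℤ) =
      ∏ l ∈ n1.primeFactors, if l ∣ 20 * Q then 1 + hh n1 (20 * Q) l else 1 := by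
    intro t ht
    obtain ⟨g1, g2, g3, g4, g5⟩ := (mem_TT n1 Q t).1 ht
    have hφ : 0 < Q / t.1 ^ 2 := Nat.div_pos (Nat.le_of_dvd hQ g3) (pow_pos g2 2)
    rw [fib n1 hn1 b Q t ht, C_prod _ _ _ _ _ (by omega : 0 < 20 * (Q / t.1 ^ 2)) hs,
      Nat.cast_prod]
    refine Finset.prod_congr rfl fun l hl => ?_
    have hl1 := Nat.prime_of_mem_primeFactors hl
    have hl2 := Nat.dvd_of_mem_primeFactors hl
    have hl10 := (hdvd l hl1 hl2).1
    refine C_local (n2 := n2) hl1 ?_ hl10 hl2 (hdvd l hl1 hl2).2 hD0 hDD' ?_ ?_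
    · rintro rfl
      exact hl10 (by norm_num)
    · rw [mul_left_comm, Nat.mul_div_cancel' g3]
    · have e1 := Nat.mul_div_cancel' g5
      generalize (t.2 ^ 2 + n1) / (4 * (Q / t.1 ^ 2)) = g at e1 ⊢
      have : 20 * (Q / t.1 ^ 2) * (20 * g) = 100 * (4 * (Q / t.1 ^ 2) * g) := by ring
      rw [this, e1]
      ring
  rw [Finset.card_eq_sum_card_fiberwise (f := fun q => (q.1, q.2.2.1)) (t := TT n1 Q),
    Nat.cast_sum, Finset.sum_congr rfl h1, Finset.sum_const, nsmul_eq_mul, card_TT hk Q hQ]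
  intro q hq
  have hq := Finset.mem_coe.1 hq
  unfold XX at hq
  have hq := Finset.mem_filter.1 hq
  have hq3 := Finset.mem_product.1 hq.1
  exact Finset.mem_coe.2 ((mem_TT n1 Q _).2 ⟨Finset.mem_range.1 hq3.1, hq.2.1, hq.2.2.1,
    hq.2.2.2.1, hq.2.2.2.2.2.2.1⟩)

/-- the factor at `l` of the sum over `e` -/
theorem U_fac {n1 k : ℕ} (hs : Squarefree n1) (hk : n1 + 1 = 4 * k) (l : ℕ) (hp : l.Prime)
    (hl : l ≠ 2) (V : ℕ) : (U k (l ^ V) : ℤ) = if l ∣ n1 then 1 else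
      ∑ j ∈ range (V + 1), (jacobiSym (-(n1 : ℤ)) l) ^ j := by
  have hn1 : 0 < n1 := Nat.pos_of_ne_zero hs.ne_zero
  rw [U_odd hk hn1 l hp hl]
  split_ifs with h
  · rw [S_ram n1 hn1 l hp h _ V, Nat.cast_one]
    intro h2
    rw [pow_two] at h2
    exact hp.one_lt.ne' (Nat.isUnit_iff.1 (hs l h2))
  · exact S_unram n1 hn1 l hp hl h V

/-- the sum over `e` as a product over all primes -/
theorem U_all {n1 k Q : ℕ} (hs : Squarefree n1) (hk : n1 + 1 = 4 * k) (hQ : 0 < Q) :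
    (U k Q : ℤ) = (∑ j ∈ range (Q.factorization 2 + 1), sg2 k ^ j) *
      (U k (5 ^ Q.factorization 5) : ℤ) *
      ∏ l ∈ ((20 * Q).primeFactors.erase 2).erase 5, (if l ∣ n1 then 1 else
        ∑ j ∈ range ((20 * Q).factorization l + 1), (jacobiSym (-(n1 : ℤ)) l) ^ j) := by
  have hk0 : 0 < k := by
    by_contra h
    omega
  have hQ20 : 20 * Q ≠ 0 := by omega
  have hsub : Q.primeFactors ⊆ (20 * Q).primeFactors :=
    Nat.primeFactors_mono (Dvd.intro_left _ rfl) hQ20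
  have h0 : (U k Q : ℤ) = ∏ l ∈ (20 * Q).primeFactors, (U k (l ^ Q.factorization l) : ℤ) := by
    rw [U_prod k hk0 Q hQ, Nat.cast_prod]
    refine Finset.prod_subset hsub fun l hl hl' => ?_
    have hp := Nat.prime_of_mem_primeFactors hl
    have : Q.factorization l = 0 := by
      apply Nat.factorization_eq_zero_of_not_dvd
      intro h
      exact hl' (Nat.mem_primeFactors.2 ⟨hp, h, hQ.ne'⟩)
    rw [this, U_pow k hk0 l hp, Finset.sum_range_one]
    simp [P_one]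
  have h2 : 2 ∈ (20 * Q).primeFactors :=
    Nat.mem_primeFactors.2 ⟨Nat.prime_two, ⟨10 * Q, by ring⟩, hQ20⟩
  have h5 : 5 ∈ (20 * Q).primeFactors.erase 2 := Finset.mem_erase.2 ⟨by norm_num,
    Nat.mem_primeFactors.2 ⟨by norm_num, ⟨4 * Q, by ring⟩, hQ20⟩⟩
  rw [h0, ← Finset.mul_prod_erase _ _ h2, ← Finset.mul_prod_erase _ _ h5, U_two k hk0,
    ← mul_assoc]
  congr 1
  refine Finset.prod_congr rfl fun l hl => ?_
  have hl5 := Finset.mem_erase.1 hl
  have hl2 := Finset.mem_erase.1 hl5.2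
  have hp := Nat.prime_of_mem_primeFactors hl2.2
  have hf : (20 * Q).factorization l = Q.factorization l := by
    rw [Nat.factorization_mul (by norm_num) hQ.ne', Finsupp.add_apply,
      Nat.factorization_eq_zero_of_not_dvd, zero_add]
    intro h
    have h20 : 20 = 2 * 2 * 5 := by norm_num
    rw [h20] at h
    rcases hp.dvd_mul.1 h with h | h
    · rcases hp.dvd_mul.1 h with h | h <;>
        exact hl2.1 ((Nat.prime_dvd_prime_iff_eq hp Nat.prime_two).1 h)
    · exact hl5.1 ((Nat.prime_dvd_prime_iff_eq hp (by norm_num)).1 h)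
  rw [hf]
  exact U_fac hs hk l hp hl2.1 _

theorem prod_fac {n1 Q : ℕ} (hn1 : 0 < n1) (hQ : 0 < Q) (h10 : Nat.Coprime n1 10) :
    (∏ l ∈ ((20 * Q).primeFactors.erase 2).erase 5, (if l ∣ n1 then (1 : ℤ) else
        ∑ j ∈ range ((20 * Q).factorization l + 1), (jacobiSym (-(n1 : ℤ)) l) ^ j)) *
      ∏ l ∈ n1.primeFactors, (if l ∣ 20 * Q then 1 + hh n1 (20 * Q) l else 1) =
    ∏ l ∈ ((20 * Q).primeFactors.erase 2).erase 5, fac n1 (20 * Q) l := by
  have h4 : ∏ l ∈ n1.primeFactors, (if l ∣ 20 * Q then 1 + hh n1 (20 * Q) l else 1) =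
      ∏ l ∈ ((20 * Q).primeFactors.erase 2).erase 5,
        (if l ∣ n1 then 1 + hh n1 (20 * Q) l else 1) := by
    rw [← Finset.prod_filter, ← Finset.prod_filter]
    refine Finset.prod_congr ?_ fun _ _ => rfl
    ext l
    rw [Finset.mem_filter, Finset.mem_filter, Finset.mem_erase, Finset.mem_erase,
      Nat.mem_primeFactors, Nat.mem_primeFactors]
    constructor
    · rintro ⟨⟨a1, a2, _⟩, a4⟩
      have hn : ¬ l ∣ 10 := by
        intro h
        have := Nat.dvd_gcd a2 h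
        rw [h10] at this
        exact a1.one_lt.ne' (Nat.dvd_one.1 this)
      refine ⟨⟨?_, ?_, a1, a4, by omega⟩, a2⟩
      · rintro rfl; exact hn (by norm_num)
      · rintro rfl; exact hn (by norm_num)
    · rintro ⟨⟨_, _, a1, a4, _⟩, a2⟩
      exact ⟨⟨a1, a2, hn1.ne'⟩, a4⟩
  rw [h4, ← Finset.prod_mul_distrib]
  refine Finset.prod_congr rfl fun l _ => ?_
  unfold fac
  split_ifs with h
  · rw [one_mul]
  · rw [mul_one]

theorem ip_eq (v w : Fin 3 → ℤ) : ip v w = gi v w := rfl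

theorem mem_vec (n : ℤ) (v : Fin 3 → ℤ) : v ∈ vec n ↔ gi v v = n := by
  rw [vec, Finset.mem_filter, Fintype.mem_piFinset, ip_eq]
  exact ⟨fun h => h.2, fun h => ⟨fun i => gi_bound h i, h⟩⟩

theorem card_pairs (n1 n2 : ℕ) (b : ℤ) : Nat.card (Pairs n1 n2 b) = cp n1 b n2 := by
  rw [cp]
  apply Nat.subtype_card
  intro q
  rw [Finset.mem_filter, Finset.mem_product, mem_vec, mem_vec, ip_eq, and_assoc]

/-- PC15 -/
theorem t_PC : S_PC := by
  intro n1 n2 b D hs h3 h5 hD hDD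
  have hn1 : 0 < n1 := by omega
  obtain ⟨k, hk⟩ : ∃ k, n1 + 1 = 4 * k := ⟨(n1 + 1) / 4, by omega⟩
  have h10 : Nat.Coprime n1 10 := by
    have h2 : Nat.Coprime n1 2 :=
      ((Nat.Prime.coprime_iff_not_dvd Nat.prime_two).2 (by omega)).symm
    have h5' : Nat.Coprime n1 5 :=
      ((Nat.Prime.coprime_iff_not_dvd (by norm_num : Nat.Prime 5)).2 h5).symm
    exact Nat.Coprime.mul_right h2 h5'
  rw [← card_pairs]
  by_cases h20 : 20 ∣ D
  · obtain ⟨Q, rfl⟩ := h20
    have hQ : 0 < Q := by omega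
    have hDD' : 20 * (Q : ℤ) = n1 * n2 - b ^ 2 := by
      rw [← hDD]; push_cast; ring
    have hX := t_XC hs h10 hk hQ hDD'
    rw [U_all hs hk hQ, mul_assoc, prod_fac hn1 hQ h10] at hX
    have hv2 : (20 * Q).factorization 2 = Q.factorization 2 + 2 := by
      have e : 20 * Q = 2 ^ 2 * (5 * Q) := by ring
      rw [e, Nat.factorization_mul (by norm_num) (by omega), Finsupp.add_apply,
        Nat.Prime.factorization_pow Nat.prime_two, Finsupp.single_eq_same,
        Nat.factorization_mul (by norm_num) hQ.ne', Finsupp.add_apply,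
        Nat.factorization_eq_zero_of_not_dvd (by norm_num : ¬ 2 ∣ 5)]
      ring
    have hv5 : (20 * Q).factorization 5 = Q.factorization 5 + 1 := by
      have e : 20 * Q = 5 ^ 1 * (4 * Q) := by ring
      rw [e, Nat.factorization_mul (by norm_num) (by omega), Finsupp.add_apply,
        Nat.Prime.factorization_pow (by norm_num), Finsupp.single_eq_same,
        Nat.factorization_mul (by norm_num) hQ.ne', Finsupp.add_apply,
        Nat.factorization_eq_zero_of_not_dvd (by norm_num : ¬ 5 ∣ 4)]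
      ring
    have htw : tw n1 (20 * Q) = ∑ j ∈ range (Q.factorization 2 + 1), sg2 k ^ j := by
      unfold tw sg2
      rw [hv2]
      have e1 : Q.factorization 2 + 2 - 1 = Q.factorization 2 + 1 := by omega
      have e2 : (n1 % 8 = 7) ↔ (k % 2 = 0) := by omega
      rw [e1]
      refine Finset.sum_congr rfl fun j _ => ?_
      simp only [e2]
    have h55 := U_fac hs hk 5 (by norm_num) (by norm_num) (Q.factorization 5)
    rw [if_neg h5] at h55
    have hJ : jacobiSym (-(n1 : ℤ)) 5 = if n1 % 5 = 1 ∨ n1 % 5 = 4 then 1 else -1 := by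
      have h1 : n1 % 5 = 1 ∨ n1 % 5 = 2 ∨ n1 % 5 = 3 ∨ n1 % 5 = 4 := by omega
      rcases h1 with h1 | h1 | h1 | h1
      · have h0 : (-(n1 : ℤ)) % ((5 : ℕ) : ℤ) = 4 := by omega
        rw [jacobiSym.mod_left, h0, if_pos (Or.inl h1)]
        norm_num
      · have h0 : (-(n1 : ℤ)) % ((5 : ℕ) : ℤ) = 3 := by omega
        rw [jacobiSym.mod_left, h0, if_neg (by omega)]
        norm_num
      · have h0 : (-(n1 : ℤ)) % ((5 : ℕ) : ℤ) = 2 := by omega
        rw [jacobiSym.mod_left, h0, if_neg (by omega)]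
        norm_num
      · have h0 : (-(n1 : ℤ)) % ((5 : ℕ) : ℤ) = 1 := by omega
        rw [jacobiSym.mod_left, h0, if_pos (Or.inr h1)]
        norm_num
    by_cases h14 : n1 % 5 = 1 ∨ n1 % 5 = 4
    · -- no vectors
      have h0 : Nat.card (Pairs n1 n2 b) = 0 := by
        have : IsEmpty (Pairs n1 n2 b) := ⟨fun q => no_vec q.2.1 h14⟩
        exact Nat.card_of_isEmpty
      rw [if_pos h14] at hJ
      rw [hJ] at h55
      simp only [one_pow, Finset.sum_const, Finset.card_range, nsmul_eq_mul, mul_one] at h55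
      have hcnt := t_CNT hs h10 hQ hDD'
      rw [h0] at hcnt
      have hX0 : ((XX n1 b Q).card : ℤ) = 0 := by
        have : (XX n1 b Q).card = 0 := by omega
        rw [this]; rfl
      rw [hX0, h55, ← htw] at hX
      have h6 : tw n1 (20 * Q) * ∏ l ∈ ((20 * Q).primeFactors.erase 2).erase 5,
          fac n1 (20 * Q) l = 0 := by
        have h7 : ((Q.factorization 5 + 1 : ℕ) : ℤ) * (tw n1 (20 * Q) *
            ∏ l ∈ ((20 * Q).primeFactors.erase 2).erase 5, fac n1 (20 * Q) l) = 0 := by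
          rw [hX]; ring
        rcases mul_eq_zero.1 h7 with h8 | h8
        · exfalso
          have : (Q.factorization 5 + 1 : ℕ) = 0 := by exact_mod_cast h8
          omega
        · exact h8
      rw [h0]
      unfold loc
      split_ifs
      · rw [h6]; simp
      · simp
    · rw [if_neg h14] at hJ
      rw [hJ] at h55
      rw [t_CNT hs h10 hQ hDD']
      push_cast
      rw [hX, h55, ← htw]
      unfold loc
      rw [hv5]
      rcases Nat.even_or_odd' (Q.factorization 5) with ⟨m, hm | hm⟩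
      · rw [hm, if_pos ⟨m, rfl⟩]
        have : ∑ j ∈ range (2 * m + 1), (-1 : ℤ) ^ j = 1 := by
          rw [neg_one_geom_sum, if_neg (by rw [Nat.not_even_iff_odd]; exact ⟨m, rfl⟩)]
        rw [this]
        ring
      · rw [hm, if_neg (by rw [Nat.not_odd_iff_even]; exact ⟨m + 1, by ring⟩)]
        have : ∑ j ∈ range (2 * m + 1 + 1), (-1 : ℤ) ^ j = 0 := by
          rw [neg_one_geom_sum, if_pos ⟨m + 1, by ring⟩]
        rw [this]
        ring
  · rw [no_pairs hDD h20]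
    unfold loc
    split_ifs with h
    · have h5D : 5 ∣ D := by
        by_contra hc
        rw [Nat.factorization_eq_zero_of_not_dvd hc] at h
        exact absurd h (by decide)
      have h4D : ¬ 4 ∣ D := by
        intro h4
        exact h20 (Nat.Coprime.mul_dvd_of_dvd_of_dvd (by norm_num : Nat.Coprime 4 5) h4 h5D)
      have h2 : D.factorization 2 - 1 = 0 := by
        have : ¬ 2 ≤ D.factorization 2 := by
          intro h2
          exact h4D ((Nat.Prime.pow_dvd_iff_le_factorization Nat.prime_two hD.ne').2 h2)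
        omega
      unfold tw
      rw [h2]
      simp
    · simp

end Pool.Agent.N972.PC15
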