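import Pool.Agent.N972.PC15.Tors

/-!
The rotations of the lattice of level 5 and the number of frames (project X15, part PC15).
-/

set_option autoImplicit false
set_option linter.all false

namespace Pool.Agent.N972.PC15

open Finset Matrix
open Pool.Agent.Y288.Z7 (cols dd3 det_cols cols_eq)

theorem gi_comm (v w : Fin 3 → ℤ) : gi v w = gi w v := by
  simp only [gi]; ring

/-- three times the norm -/
theorem three_gi (v : Fin 3 → ℤ) : 3 * gi v v = (3 * v 0 - v 1 - v 2) ^ 2 +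
    20 * (v 1 ^ 2 - v 1 * v 2 + v 2 ^ 2) := by
  simp only [gi]; ring

theorem gi_nonneg (v : Fin 3 → ℤ) : 0 ≤ gi v v := by
  have h := three_gi v
  nlinarith [sq_nonneg (3 * v 0 - v 1 - v 2), sq_nonneg (v 1 - v 2), sq_nonneg (v 1),
    sq_nonneg (v 2)]

/-- the vectors of norm 3 -/
def un3 : Fin 2 → Fin 3 → ℤ := ![![1, 0, 0], ![-1, 0, 0]]

/-- the vectors of norm 7 -/
def un7 : Fin 6 → Fin 3 → ℤ := ![![0, 1, 0], ![0, 0, 1], ![1, 1, 1], ![0, -1, 0], ![0, 0, -1],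
  ![-1, -1, -1]]

theorem small_q {x y : ℤ} {B : ℤ} (h : x ^ 2 - x * y + y ^ 2 ≤ B) : 3 * x ^ 2 ≤ 4 * B ∧
    3 * y ^ 2 ≤ 4 * B := by
  constructor <;> nlinarith [sq_nonneg (2 * x - y), sq_nonneg (2 * y - x)]

theorem un3_surj {v : Fin 3 → ℤ} (h : gi v v = 3) : ∃ i, un3 i = v := by
  have h3 := three_gi v
  have hv : v = ![v 0, v 1, v 2] := by ext i; fin_cases i <;> rfl
  rw [h] at h3
  rw [hv]
  generalize v 0 = x at *
  generalize v 1 = y at *
  generalize v 2 = z at *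
  have hq : y ^ 2 - y * z + z ^ 2 ≤ 0 := by
    have h1 : 20 * (y ^ 2 - y * z + z ^ 2) ≤ 9 := by nlinarith [sq_nonneg (3 * x - y - z)]
    omega
  obtain ⟨h1, h2⟩ := small_q hq
  have hy : y = 0 := by
    have : y ^ 2 ≤ 0 := by linarith
    exact pow_eq_zero_iff two_ne_zero |>.1 (le_antisymm this (sq_nonneg y))
  have hz : z = 0 := by
    have : z ^ 2 ≤ 0 := by linarith
    exact pow_eq_zero_iff two_ne_zero |>.1 (le_antisymm this (sq_nonneg z))
  subst hy; subst hz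
  have hx : (x - 1) * (x + 1) = 0 := by linarith
  rcases mul_eq_zero.1 hx with h5 | h5
  · exact ⟨0, by rw [show x = 1 by linarith]; rfl⟩
  · exact ⟨1, by rw [show x = -1 by linarith]; rfl⟩

theorem un7_surj {v : Fin 3 → ℤ} (h : gi v v = 7) : ∃ i, un7 i = v := by
  have h3 := three_gi v
  have hv : v = ![v 0, v 1, v 2] := by ext i; fin_cases i <;> rfl
  rw [h] at h3
  rw [hv]
  generalize v 0 = x at *
  generalize v 1 = y at *
  generalize v 2 = z at *
  have hq : y ^ 2 - y * z + z ^ 2 ≤ 1 := by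
    have h1 : 20 * (y ^ 2 - y * z + z ^ 2) ≤ 21 := by nlinarith [sq_nonneg (3 * x - y - z)]
    omega
  obtain ⟨h1, h2⟩ := small_q hq
  have hy1 : -1 ≤ y ∧ y ≤ 1 := by constructor <;> nlinarith
  have hz1 : -1 ≤ z ∧ z ≤ 1 := by constructor <;> nlinarith
  have hu : (3 * x - y - z) ^ 2 ≤ 21 := by
    nlinarith [sq_nonneg (y - z), sq_nonneg y, sq_nonneg z]
  have hx1 : -2 ≤ x ∧ x ≤ 2 := by constructor <;> nlinarith
  obtain ⟨a1, a2⟩ := hy1
  obtain ⟨b1, b2⟩ := hz1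
  obtain ⟨c1, c2⟩ := hx1
  clear h hv hq h1 h2 hu
  interval_cases x <;> interval_cases y <;> interval_cases z <;>
    first
    | exact ⟨0, rfl⟩
    | exact ⟨1, rfl⟩
    | exact ⟨2, rfl⟩
    | exact ⟨3, rfl⟩
    | exact ⟨4, rfl⟩
    | exact ⟨5, rfl⟩
    | (exfalso; revert h3; decide)

theorem un3_inj : Function.Injective un3 := by
  intro i j h
  have h0 := congrFun h 0
  revert h0 i j
  decide

theorem un7_inj : Function.Injective un7 := by
  intro i j h
  have h0 := congrFun h 0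
  have h1 := congrFun h 1
  have h2 := congrFun h 2
  revert h0 h1 h2 i j
  decide

def chk (p : Fin 2 × Fin 6 × Fin 6) : Bool :=
  gi (un3 p.1) (un7 p.2.1) = -1 && gi (un3 p.1) (un7 p.2.2) = -1 &&
    gi (un7 p.2.1) (un7 p.2.2) = -3 && dd3 (un3 p.1) (un7 p.2.1) (un7 p.2.2) = 1

theorem chk_card : (Finset.univ.filter fun p : Fin 2 × Fin 6 × Fin 6 => chk p = true).card = 6 := by
  decide +kernel

theorem gram_iff (v w z : Fin 3 → ℤ) (M : Matrix (Fin 3) (Fin 3) ℤ) (hM : Mᵀ = M) :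
    (cols v w z)ᵀ * GG * cols v w z = M ↔ gi v v = M 0 0 ∧ gi v w = M 0 1 ∧ gi v z = M 0 2 ∧
      gi w w = M 1 1 ∧ gi w z = M 1 2 ∧ gi z z = M 2 2 := by
  have h10 : M 1 0 = M 0 1 := congrFun (congrFun hM 0) 1
  have h20 : M 2 0 = M 0 2 := congrFun (congrFun hM 0) 2
  have h21 : M 2 1 = M 1 2 := congrFun (congrFun hM 1) 2
  have c0 : (fun k => cols v w z k 0) = v := rfl
  have c1 : (fun k => cols v w z k 1) = w := rfl
  have c2 : (fun k => cols v w z k 2) = z := rfl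
  constructor
  · intro h
    have hh : ∀ i j, gi (fun k => cols v w z k i) (fun k => cols v w z k j) = M i j := fun i j => by
      rw [← h, conj_apply, gi_eq]
    exact ⟨hh 0 0, hh 0 1, hh 0 2, hh 1 1, hh 1 2, hh 2 2⟩
  · rintro ⟨h1, h2, h3, h4, h5, h6⟩
    ext i j
    rw [conj_apply, gi_eq]
    fin_cases i <;> fin_cases j
    · exact h1
    · exact h2
    · exact h3
    · exact (gi_comm _ _).trans (h2.trans h10.symm)
    · exact h4
    · exact h5
    · exact (gi_comm _ _).trans (h3.trans h20.symm)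
    · exact (gi_comm _ _).trans (h5.trans h21.symm)
    · exact h6

theorem GG_symm : GGᵀ = GG := by decide

theorem card_rot :
    Nat.card {R : Matrix (Fin 3) (Fin 3) ℤ // Rᵀ * GG * R = GG ∧ R.det = 1} = 6 := by
  have key : ∀ v w z : Fin 3 → ℤ, ((cols v w z)ᵀ * GG * cols v w z = GG ∧ (cols v w z).det = 1) ↔
      (gi v v = 3 ∧ gi v w = -1 ∧ gi v z = -1 ∧ gi w w = 7 ∧ gi w z = -3 ∧ gi z z = 7) ∧
        dd3 v w z = 1 := by
    intro v w z
    rw [det_cols, gram_iff v w z GG GG_symm]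
    have g00 : GG 0 0 = 3 := rfl
    have g01 : GG 0 1 = -1 := rfl
    have g02 : GG 0 2 = -1 := rfl
    have g11 : GG 1 1 = 7 := rfl
    have g12 : GG 1 2 = -3 := rfl
    have g22 : GG 2 2 = 7 := rfl
    rw [g00, g01, g02, g11, g12, g22]
  have hn3 : ∀ i, gi (un3 i) (un3 i) = 3 := by decide
  have hn7 : ∀ i, gi (un7 i) (un7 i) = 7 := by decide
  let F : {p : Fin 2 × Fin 6 × Fin 6 // chk p = true} →
      {R : Matrix (Fin 3) (Fin 3) ℤ // Rᵀ * GG * R = GG ∧ R.det = 1} := fun p =>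
    ⟨cols (un3 p.1.1) (un7 p.1.2.1) (un7 p.1.2.2), (key _ _ _).2 (by
      have h := p.2
      simp only [chk, Bool.and_eq_true, decide_eq_true_eq] at h
      exact ⟨⟨hn3 _, h.1.1.1, h.1.1.2, hn7 _, h.1.2, hn7 _⟩, h.2⟩)⟩
  have hF : Function.Bijective F := by
    constructor
    · rintro ⟨⟨i, j, k⟩, hp⟩ ⟨⟨i', j', k'⟩, hp'⟩ h
      have h1 := congrArg Subtype.val h
      have h2 : ∀ r c, cols (un3 i) (un7 j) (un7 k) r c = cols (un3 i') (un7 j') (un7 k') r c :=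
        fun r c => congrFun (congrFun h1 r) c
      have e1 : i = i' := un3_inj (funext fun r => h2 r 0)
      have e2 : j = j' := un7_inj (funext fun r => h2 r 1)
      have e3 : k = k' := un7_inj (funext fun r => h2 r 2)
      subst e1; subst e2; subst e3
      rfl
    · rintro ⟨R, hR⟩
      have hR' := hR
      rw [cols_eq R, key] at hR'
      obtain ⟨⟨h1, h2, h3, h4, h5, h6⟩, h7⟩ := hR'
      obtain ⟨i, hi⟩ := un3_surj (v := fun i => R i 0) h1
      obtain ⟨j, hj⟩ := un7_surj (v := fun i => R i 1) h4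
      obtain ⟨k, hk⟩ := un7_surj (v := fun i => R i 2) h6
      refine ⟨⟨(i, j, k), ?_⟩, ?_⟩
      · simp only [chk, Bool.and_eq_true, decide_eq_true_eq, hi, hj, hk]
        exact ⟨⟨⟨h2, h3⟩, h5⟩, h7⟩
      · apply Subtype.ext
        show cols (un3 i) (un7 j) (un7 k) = R
        rw [hi, hj, hk]
        exact (cols_eq R).symm
  rw [← Nat.card_eq_of_bijective F hF, Nat.card_eq_fintype_card, Fintype.card_subtype]
  exact chk_card

/-- TORS: the number of frames -/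
theorem t_TORS (M : Matrix (Fin 3) (Fin 3) ℤ) (hM : PosF M) :
    Nat.card {A : Matrix (Fin 3) (Fin 3) ℤ // Aᵀ * GG * A = M.adjugate ∧ A.det = 1} = 6 := by
  obtain ⟨A0, hA0, hd0⟩ := exists_A hM
  rw [← card_rot]
  have hu : IsUnit A0.det := by rw [hd0]; exact isUnit_one
  have h1 : A0 * A0⁻¹ = 1 := mul_nonsing_inv A0 hu
  have h2 : A0⁻¹ * A0 = 1 := nonsing_inv_mul A0 hu
  have h3 : A0⁻¹ᵀ * A0ᵀ = 1 := by rw [← transpose_mul, h1, transpose_one]
  have h4 : A0⁻¹.det = 1 := by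
    have := congrArg det h1
    rwa [det_mul, hd0, one_mul, det_one] at this
  refine Nat.card_congr ?_
  refine ⟨fun A => ⟨A.1 * A0⁻¹, ?_, ?_⟩, fun R => ⟨R.1 * A0, ?_, ?_⟩, ?_, ?_⟩
  · have e : (A.1 * A0⁻¹)ᵀ * GG * (A.1 * A0⁻¹) = A0⁻¹ᵀ * (A.1ᵀ * GG * A.1) * A0⁻¹ := by
      rw [transpose_mul]; simp only [Matrix.mul_assoc]
    rw [e, A.2.1, ← hA0]
    have e2 : A0⁻¹ᵀ * (A0ᵀ * GG * A0) * A0⁻¹ = (A0⁻¹ᵀ * A0ᵀ) * GG * (A0 * A0⁻¹) := by
      simp only [Matrix.mul_assoc]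
    rw [e2, h3, h1, Matrix.one_mul, Matrix.mul_one]
  · rw [det_mul, A.2.2, h4, one_mul]
  · have e : (R.1 * A0)ᵀ * GG * (R.1 * A0) = A0ᵀ * (R.1ᵀ * GG * R.1) * A0 := by
      rw [transpose_mul]; simp only [Matrix.mul_assoc]
    rw [e, R.2.1, hA0]
  · rw [det_mul, R.2.2, hd0, one_mul]
  · intro A
    apply Subtype.ext
    show A.1 * A0⁻¹ * A0 = A.1
    rw [Matrix.mul_assoc, h2, Matrix.mul_one]
  · intro R
    apply Subtype.ext
    show R.1 * A0 * A0⁻¹ = R.1
    rw [Matrix.mul_assoc, h1, Matrix.mul_one]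

end Pool.Agent.N972.PC15
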