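import Pool.Agent.Y288.Z7.Tors

/-!
The ternary lattice of level 5: equivalence of the even positive definite ternary forms of
determinant ten, and the rotations of the lattice (project X15, part PC15).
-/

set_option autoImplicit false
set_option linter.all false

namespace Pool.Agent.N972.PC15

open Finset Matrix
open Pool.Agent.Z700 (V3)
open Pool.Agent.Y288.Z7 (exists_round cols dd3 det_cols cols_eq)

/-- the bilinear form `G` -/
def gi (v w : Fin 3 → ℤ) : ℤ := 3 * (v 0 * w 0) + 7 * (v 1 * w 1) + 7 * (v 2 * w 2) -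
  (v 0 * w 1 + v 1 * w 0) - (v 0 * w 2 + v 2 * w 0) - 3 * (v 1 * w 2 + v 2 * w 1)

/-- the dual bilinear form `F` -/
def fi (v w : Fin 3 → ℤ) : ℤ := 4 * (v 0 * w 0) + 2 * (v 1 * w 1) + 2 * (v 2 * w 2) +
  (v 0 * w 1 + v 1 * w 0) + (v 0 * w 2 + v 2 * w 0) + (v 1 * w 2 + v 2 * w 1)

/-- the quadratic form attached to `F` -/
def ff (c : Fin 3 → ℤ) : ℤ := 2 * c 0 ^ 2 + c 1 ^ 2 + c 2 ^ 2 + c 0 * c 1 + c 0 * c 2 + c 1 * c 2

/-- vectors with a given Gram matrix with respect to `F` -/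
def RepF (a b c d e f : ℤ) : Prop := ∃ v w z : Fin 3 → ℤ,
  fi v v = a ∧ fi v w = b ∧ fi v z = c ∧ fi w w = d ∧ fi w z = e ∧ fi z z = f

theorem fi_comm (v w : Fin 3 → ℤ) : fi v w = fi w v := by
  simp only [fi]; ring

theorem fi_add_smul (u v w : Fin 3 → ℤ) (t : ℤ) : fi u (w + t • v) = fi u w + t * fi u v := by
  simp only [fi, Pi.add_apply, Pi.smul_apply, smul_eq_mul]; ring

theorem add_smul_fi (u v w : Fin 3 → ℤ) (t : ℤ) : fi (w + t • v) u = fi w u + t * fi v u := by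
  simp only [fi, Pi.add_apply, Pi.smul_apply, smul_eq_mul]; ring

theorem fi_neg (u v : Fin 3 → ℤ) : fi u (-v) = -fi u v := by
  simp only [fi, Pi.neg_apply]; ring

theorem neg_fi (u v : Fin 3 → ℤ) : fi (-u) v = -fi u v := by
  simp only [fi, Pi.neg_apply]; ring

theorem RepF.shear12 {a b c d e f : ℤ} (t : ℤ)
    (h : RepF a (b - t * a) c (d - 2 * t * b + t ^ 2 * a) (e - t * c) f) : RepF a b c d e f := by
  obtain ⟨v, w, z, h1, h2, h3, h4, h5, h6⟩ := h
  refine ⟨v, w + t • v, z, h1, ?_, h3, ?_, ?_, h6⟩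
  · rw [fi_add_smul, h1, h2]; ring
  · rw [fi_add_smul, add_smul_fi, add_smul_fi, fi_comm w v, h1, h2, h4]; ring
  · rw [add_smul_fi, h3, h5]; ring

theorem RepF.shear23 {a b c d e f : ℤ} (s : ℤ)
    (h : RepF a b (c - s * b) d (e - s * d) (f - 2 * s * e + s ^ 2 * d)) : RepF a b c d e f := by
  obtain ⟨v, w, z, h1, h2, h3, h4, h5, h6⟩ := h
  refine ⟨v, w, z + s • w, h1, h2, ?_, h4, ?_, ?_⟩
  · rw [fi_add_smul, h3, h2]; ring
  · rw [fi_add_smul, h4, h5]; ring
  · rw [fi_add_smul, add_smul_fi, add_smul_fi, fi_comm z w, h6, h5, h4]; ring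

theorem RepF.swap12 {a b c d e f : ℤ} (h : RepF d b e a c f) : RepF a b c d e f := by
  obtain ⟨v, w, z, h1, h2, h3, h4, h5, h6⟩ := h
  exact ⟨w, v, z, h4, by rw [fi_comm, h2], h5, h1, h3, h6⟩

theorem RepF.swap23 {a b c d e f : ℤ} (h : RepF a c b f e d) : RepF a b c d e f := by
  obtain ⟨v, w, z, h1, h2, h3, h4, h5, h6⟩ := h
  exact ⟨v, z, w, h1, h3, h2, h6, by rw [fi_comm, h5], h4⟩

theorem RepF.neg2 {a b c d e f : ℤ} (h : RepF a (-b) c d (-e) f) : RepF a b c d e f := by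
  obtain ⟨v, w, z, h1, h2, h3, h4, h5, h6⟩ := h
  refine ⟨v, -w, z, h1, ?_, h3, ?_, ?_, h6⟩
  · rw [fi_neg, h2, neg_neg]
  · rw [fi_neg, neg_fi, h4, neg_neg]
  · rw [neg_fi, h5, neg_neg]

/-- the last step of the reduction -/
theorem rep_base {c e f K : ℤ} (hK : K = 2 * e - c) (hK1 : K = 1 ∨ K = -1)
    (hf : 3 * (2 * f - c ^ 2) = K ^ 2 + 20) : RepF 2 1 c 2 e f := by
  have hKK : K ^ 2 = 1 := by rcases hK1 with h | h <;> rw [h] <;> norm_num
  have hc : c = 2 * e - K := by linarith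
  refine ⟨![0, 1, 0], ![0, 0, 1], ![K, e - K, 0], ?_, ?_, ?_, ?_, ?_, ?_⟩
  · simp [fi]
  · simp [fi]
  · simp [fi]
    rw [hc]; ring
  · simp [fi]
  · simp [fi]
  · simp [fi]
    rw [hc] at hf
    nlinarith [hf, hKK]

theorem repF_of (N : ℕ) : ∀ a b c d e f : ℤ, 0 < a → 0 < a * d - b ^ 2 →
    a * d * f + 2 * b * c * e - a * e ^ 2 - d * c ^ 2 - f * b ^ 2 = 10 →
    2 ∣ a → 2 ∣ d → 2 ∣ f →
    a + (a * d - b ^ 2) ≤ N → RepF a b c d e f := by
  induction N with
  | zero =>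
    intro a b c d e f ha hD _ _ _ _ hN
    exfalso
    push_cast at hN
    linarith
  | succ N ih =>
    intro a b c d e f ha hD hdet hea hed hef hN
    push_cast at hN
    obtain ⟨t, ht1, ht2⟩ := exists_round b a ha
    apply RepF.shear12 t
    obtain ⟨b', hb'⟩ : ∃ b', b' = b - t * a := ⟨_, rfl⟩
    obtain ⟨d', hd'⟩ : ∃ d', d' = d - 2 * t * b + t ^ 2 * a := ⟨_, rfl⟩
    obtain ⟨e', he'⟩ : ∃ e', e' = e - t * c := ⟨_, rfl⟩
    rw [← hb', ← hd', ← he']
    rw [← hb'] at ht1 ht2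
    have hD' : a * d' - b' ^ 2 = a * d - b ^ 2 := by rw [hd', hb']; ring
    have hdet' : a * d' * f + 2 * b' * c * e' - a * e' ^ 2 - d' * c ^ 2 - f * b' ^ 2 = 10 := by
      rw [← hdet, hd', hb', he']; ring
    have hed' : 2 ∣ d' := by
      rw [hd']
      exact dvd_add (dvd_sub hed ⟨t * b, by ring⟩) (Dvd.dvd.mul_left hea _)
    rw [← hD'] at hD hN
    have hd'0 : 0 < d' := by
      by_contra hcon
      push Not at hcon
      nlinarith [sq_nonneg b']
    have hb2 : 4 * b' ^ 2 ≤ a ^ 2 := by nlinarith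
    by_cases hlt : d' < a
    · apply RepF.swap12
      apply ih d' b' e' a c f hd'0 (by linarith) (by linarith) hed' hea hef
      have : d' * a - b' ^ 2 = a * d' - b' ^ 2 := by ring
      rw [this]
      linarith
    push Not at hlt
    obtain ⟨D2, hD2⟩ : ∃ D2, D2 = a * d' - b' ^ 2 := ⟨_, rfl⟩
    rw [← hD2] at hD hN
    have h34 : 3 * a ^ 2 ≤ 4 * D2 := by nlinarith
    obtain ⟨s, hs1, hs2⟩ := exists_round (a * e' - b' * c) D2 hD
    apply RepF.shear23 s
    obtain ⟨c2, hc2⟩ : ∃ c2, c2 = c - s * b' := ⟨_, rfl⟩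
    obtain ⟨e2, he2⟩ : ∃ e2, e2 = e' - s * d' := ⟨_, rfl⟩
    obtain ⟨f2, hf2⟩ : ∃ f2, f2 = f - 2 * s * e' + s ^ 2 * d' := ⟨_, rfl⟩
    rw [← hc2, ← he2, ← hf2]
    have hef2 : 2 ∣ f2 := by
      rw [hf2]
      exact dvd_add (dvd_sub hef ⟨s * e', by ring⟩) (Dvd.dvd.mul_left hed' _)
    have hdet2 : a * d' * f2 + 2 * b' * c2 * e2 - a * e2 ^ 2 - d' * c2 ^ 2 - f2 * b' ^ 2 = 10 := by
      rw [← hdet', hc2, he2, hf2]; ring
    obtain ⟨K, hK⟩ : ∃ K, K = a * e2 - b' * c2 := ⟨_, rfl⟩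
    have hK2 : K = a * e' - b' * c - s * D2 := by rw [hK, he2, hc2, hD2]; ring
    rw [← hK2] at hs1 hs2
    have hKK : 4 * K ^ 2 ≤ D2 ^ 2 := by nlinarith
    have hid : D2 * (a * f2 - c2 ^ 2) = K ^ 2 + 10 * a := by
      have : K ^ 2 + a * (a * d' * f2 + 2 * b' * c2 * e2 - a * e2 ^ 2 - d' * c2 ^ 2 - f2 * b' ^ 2) =
          D2 * (a * f2 - c2 ^ 2) := by
        rw [hK, hD2]; ring
      rw [← this, hdet2]; ring
    have hD3 : 0 < a * f2 - c2 ^ 2 := by
      by_contra hcon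
      push Not at hcon
      nlinarith [sq_nonneg K]
    by_cases hlt2 : a * f2 - c2 ^ 2 < D2
    · apply RepF.swap23
      apply ih a c2 b' f2 e2 d' ha hD3 (by linarith) hea hef2 hed'
      linarith
    push Not at hlt2
    have h36 : D2 * D2 ≤ K ^ 2 + 10 * a := by
      rw [← hid]
      exact mul_le_mul_of_nonneg_left hlt2 hD.le
    have h35 : 3 * (D2 * D2) ≤ 40 * a := by
      rw [pow_two D2] at hKK
      linarith
    have ha2 : a = 2 := by
      obtain ⟨a1, ha1⟩ := hea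
      by_contra hne
      have ha4 : 4 ≤ a := by omega
      have h37 : 4 * a ≤ a ^ 2 := by nlinarith
      have h38 : 3 * a ≤ D2 := by linarith
      have h39 : (3 * a) * (3 * a) ≤ D2 * D2 := mul_self_le_mul_self (by linarith) h38
      nlinarith
    subst ha2
    have hD2b : D2 ≤ 5 := by
      by_contra hcon
      push Not at hcon
      nlinarith
    have hb1 : b' = -1 ∨ b' = 0 ∨ b' = 1 := by omega
    have hd2 : d' = 2 := by
      obtain ⟨d1, hd1⟩ := hed'
      rcases hb1 with h | h | h <;> rw [h] at hD2 <;> omega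
    subst hd2
    have hbK : -2 ≤ K ∧ K ≤ 2 := by constructor <;> linarith
    obtain ⟨f3, hf3⟩ := hef2
    rcases hb1 with h | h | h
    · rw [h] at hD2 hK ⊢
      have hD2' : D2 = 3 := by rw [hD2]; norm_num
      rw [hD2'] at hid hs1 hs2
      have hK1 : K = 1 ∨ K = -1 := by
        have h1 : -1 ≤ K ∧ K ≤ 1 := by constructor <;> omega
        by_contra hcon
        have h0 : K = 0 := by omega
        rw [h0] at hid
        omega
      apply RepF.neg2
      exact rep_base (K := -K) (by rw [hK]; ring) (by rcases hK1 with h | h <;> rw [h] <;> simp)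
        (by rw [hid]; ring)
    · exfalso
      rw [h] at hD2 hK
      have hD2' : D2 = 4 := by rw [hD2]; norm_num
      rw [hD2'] at hid
      have hK3 : K = 2 * e2 := by rw [hK]; ring
      have he3 : e2 = -1 ∨ e2 = 0 ∨ e2 = 1 := by omega
      rw [hf3, hK3] at hid
      rcases he3 with h0 | h0 | h0
      · rw [h0] at hid
        have h5 : 4 * f3 = c2 ^ 2 + 6 := by linarith
        rcases Int.even_or_odd' c2 with ⟨m, hm | hm⟩ <;> rw [hm] at h5
        · have : 4 * (f3 - m ^ 2) = 6 := by linarith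
          omega
        · have : 4 * (f3 - m ^ 2 - m) = 7 := by linarith
          omega
      · rw [h0] at hid
        have h5 : 4 * f3 = c2 ^ 2 + 5 := by linarith
        rcases Int.even_or_odd' c2 with ⟨m, hm | hm⟩ <;> rw [hm] at h5
        · have : 4 * (f3 - m ^ 2) = 5 := by linarith
          omega
        · have : 4 * (f3 - m ^ 2 - m) = 6 := by linarith
          omega
      · rw [h0] at hid
        have h5 : 4 * f3 = c2 ^ 2 + 6 := by linarith
        rcases Int.even_or_odd' c2 with ⟨m, hm | hm⟩ <;> rw [hm] at h5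
        · have : 4 * (f3 - m ^ 2) = 6 := by linarith
          omega
        · have : 4 * (f3 - m ^ 2 - m) = 7 := by linarith
          omega
    · rw [h] at hD2 hK ⊢
      have hD2' : D2 = 3 := by rw [hD2]; norm_num
      rw [hD2'] at hid hs1 hs2
      have hK1 : K = 1 ∨ K = -1 := by
        have h1 : -1 ≤ K ∧ K ≤ 1 := by constructor <;> omega
        by_contra hcon
        have h0 : K = 0 := by omega
        rw [h0] at hid
        omega
      exact rep_base (K := K) (by rw [hK]; ring) hK1 (by rw [hid]; ring)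

/-- the matrix `F` -/
def FF : Matrix (Fin 3) (Fin 3) ℤ := !![4, 1, 1; 1, 2, 1; 1, 1, 2]

/-- the matrix `G` -/
def GG : Matrix (Fin 3) (Fin 3) ℤ := !![3, -1, -1; -1, 7, -3; -1, -3, 7]

theorem adj_FF : FF.adjugate = GG := by
  decide

/-- even positive definite forms of determinant ten -/
def PosF (M : Matrix (Fin 3) (Fin 3) ℤ) : Prop :=
  Mᵀ = M ∧ 0 < M 0 0 ∧ 0 < M 0 0 * M 1 1 - M 0 1 ^ 2 ∧ M.det = 10 ∧ 2 ∣ M 0 0 ∧ 2 ∣ M 1 1 ∧
    2 ∣ M 2 2

theorem mul3 (v w : Fin 3 → ℤ) (X : Matrix (Fin 3) (Fin 3) ℤ) : v ⬝ᵥ (X *ᵥ w) =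
    v 0 * (X 0 0 * w 0 + X 0 1 * w 1 + X 0 2 * w 2) + v 1 * (X 1 0 * w 0 + X 1 1 * w 1 + X 1 2 * w 2)
      + v 2 * (X 2 0 * w 0 + X 2 1 * w 1 + X 2 2 * w 2) := by
  simp only [dotProduct, mulVec, Fin.sum_univ_three]

theorem fi_eq (v w : Fin 3 → ℤ) : v ⬝ᵥ (FF *ᵥ w) = fi v w := by
  rw [mul3, fi]
  simp [FF]
  ring

theorem gi_eq (v w : Fin 3 → ℤ) : v ⬝ᵥ (GG *ᵥ w) = gi v w := by
  rw [mul3, gi]
  simp [GG]
  ring

theorem conj_apply (A X : Matrix (Fin 3) (Fin 3) ℤ) (i j : Fin 3) :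
    (Aᵀ * X * A) i j = (fun k => A k i) ⬝ᵥ (X *ᵥ (fun k => A k j)) := by
  rw [Matrix.mul_assoc, mul_apply']
  rfl

theorem exists_B {M : Matrix (Fin 3) (Fin 3) ℤ} (hM : PosF M) :
    ∃ A : Matrix (Fin 3) (Fin 3) ℤ, Aᵀ * FF * A = M ∧ A.det = 1 := by
  obtain ⟨hs, h0, hD, hdet, e0, e1, e2⟩ := hM
  have h10 : M 1 0 = M 0 1 := congrFun (congrFun hs 0) 1
  have h20 : M 2 0 = M 0 2 := congrFun (congrFun hs 0) 2
  have h21 : M 2 1 = M 1 2 := congrFun (congrFun hs 1) 2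
  have hdet' := hdet
  rw [det_fin_three, h10, h20, h21] at hdet'
  obtain ⟨v, w, z, h1, h2, h3, h4, h5, h6⟩ := repF_of
    (M 0 0 + (M 0 0 * M 1 1 - M 0 1 ^ 2)).toNat (M 0 0) (M 0 1) (M 0 2) (M 1 1) (M 1 2) (M 2 2)
    h0 hD (by linarith) e0 e1 e2 (by rw [Int.toNat_of_nonneg (by linarith)])
  have hA : (cols v w z)ᵀ * FF * (cols v w z) = M := by
    ext i j
    rw [conj_apply]
    have c0 : (fun k => cols v w z k 0) = v := rfl
    have c1 : (fun k => cols v w z k 1) = w := rfl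
    have c2 : (fun k => cols v w z k 2) = z := rfl
    fin_cases i <;> fin_cases j <;> (rw [fi_eq])
    · exact h1
    · exact h2
    · exact h3
    · exact (fi_comm _ _).trans (h2.trans h10.symm)
    · exact h4
    · exact h5
    · exact (fi_comm _ _).trans (h3.trans h20.symm)
    · exact (fi_comm _ _).trans (h5.trans h21.symm)
    · exact h6
  have hFd : FF.det = 10 := by decide
  have hd2 : (cols v w z).det * (cols v w z).det = 1 := by
    have := congrArg det hA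
    rw [det_mul, det_mul, det_transpose, hdet, hFd] at this
    linarith
  rcases mul_self_eq_one_iff.1 hd2 with h | h
  · exact ⟨_, hA, h⟩
  · refine ⟨-(cols v w z), ?_, ?_⟩
    · rw [transpose_neg, Matrix.neg_mul, Matrix.neg_mul, Matrix.mul_neg, neg_neg, hA]
    · rw [det_neg, h]
      simp

theorem exists_A {M : Matrix (Fin 3) (Fin 3) ℤ} (hM : PosF M) :
    ∃ A : Matrix (Fin 3) (Fin 3) ℤ, Aᵀ * GG * A = M.adjugate ∧ A.det = 1 := by
  obtain ⟨B, hB, hd⟩ := exists_B hM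
  refine ⟨B.adjugateᵀ, ?_, ?_⟩
  · rw [← hB, adjugate_mul_distrib, adjugate_mul_distrib, adj_FF, transpose_transpose,
      adjugate_transpose, Matrix.mul_assoc]
  · rw [det_transpose, det_adjugate, hd]
    simp

end Pool.Agent.N972.PC15
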